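import Mathlib

/-!
The scaling argument: a set of vectors satisfying two inequalities and containing two families of
vectors is not convex.
-/

set_option autoImplicit false

namespace Pool.Agent.Helper37.FC.Abs

theorem not_convex_of (n : ℕ) (X : Set (Fin (n + 4) → ℝ)) (i0 i1 i2 i3 : Fin (n + 4))
    (K A B c : ℝ) (hK : 0 ≤ K) (hA : 0 ≤ A) (hB : 0 ≤ B) (hc : 0 < c)
    (h0 : ∀ x ∈ X, ∀ i, 0 ≤ x i)
    (h1 : ∀ x ∈ X, 0 < x i2 → ∃ D : ℝ, 0 ≤ D ∧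
      D * (x i3 ^ (n + 4)) ^ (n + 2) ≤ K * (x i2 ^ (n + 3)) ^ (n + 3) ∧
      (x i1 ^ 2) ^ 2 ≤ 2 * 36 ^ 3 * D * x i0 ^ 3)
    (h2 : ∀ δ : ℝ, 0 < δ → δ ≤ 1 → ∃ q ∈ X, ∃ p ∈ X, q i0 ≤ A ∧ p i0 ≤ A ∧ c ≤ q i1 ∧
      c * δ ≤ p i3 ∧ q i2 ≤ B * δ ∧ p i2 ≤ B * δ ∧ 0 < p i2) :
    ¬ Convex ℝ X := by
  intro hX
  -- constants
  set L : ℝ := (c / 2) ^ ((n + 4) * (n + 2)) with hL
  have hLpos : 0 < L := by positivity
  set M : ℝ := K * B ^ ((n + 3) * (n + 3)) / L with hM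
  have hM0 : 0 ≤ M := by positivity
  set T : ℝ := 2 * 36 ^ 3 * M * A ^ 3 with hT
  have hT0 : 0 ≤ T := by positivity
  have hc4 : 0 < (c / 2) ^ 4 := by positivity
  -- choose delta
  obtain ⟨δ, hδ0, hδ1, hδT⟩ : ∃ δ : ℝ, 0 < δ ∧ δ ≤ 1 ∧ T * δ < (c / 2) ^ 4 := by
    refine ⟨min 1 ((c / 2) ^ 4 / (T + 1) / 2), ?_, min_le_left _ _, ?_⟩
    · apply lt_min one_pos
      positivity
    · calc T * min 1 ((c / 2) ^ 4 / (T + 1) / 2) ≤ T * ((c / 2) ^ 4 / (T + 1) / 2) :=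
            mul_le_mul_of_nonneg_left (min_le_right _ _) hT0
        _ = (T / (T + 1)) * ((c / 2) ^ 4 / 2) := by ring
        _ ≤ 1 * ((c / 2) ^ 4 / 2) := by
            apply mul_le_mul_of_nonneg_right _ (by positivity)
            rw [div_le_one (by positivity)]
            linarith
        _ < (c / 2) ^ 4 := by linarith
  obtain ⟨q, hq, p, hp, hq0, hp0, hq1, hp3, hq2, hp2, hp2'⟩ := h2 δ hδ0 hδ1
  have hr : (1 / 2 : ℝ) • q + (1 / 2 : ℝ) • p ∈ X :=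
    hX hq hp (by norm_num) (by norm_num) (by norm_num)
  set r := (1 / 2 : ℝ) • q + (1 / 2 : ℝ) • p with hrdef
  have hri : ∀ i, r i = (q i + p i) / 2 := by
    intro i
    rw [hrdef]
    simp only [Pi.add_apply, Pi.smul_apply, smul_eq_mul]
    ring
  have hr2pos : 0 < r i2 := by
    rw [hri]
    have := h0 q hq i2
    linarith
  obtain ⟨D, hD0, hDA, hDB⟩ := h1 r hr hr2pos
  have hr3 : c / 2 * δ ≤ r i3 := by
    rw [hri]
    have := h0 q hq i3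
    linarith
  have hr2 : r i2 ≤ B * δ := by
    rw [hri]
    linarith
  have hr1 : c / 2 ≤ r i1 := by
    rw [hri]
    have := h0 p hp i1
    linarith
  have hr0 : r i0 ≤ A := by
    rw [hri]
    linarith
  have hr00 : 0 ≤ r i0 := h0 r hr i0
  -- bound for D
  have hD1 : D * (c / 2 * δ) ^ ((n + 4) * (n + 2)) ≤ K * (B * δ) ^ ((n + 3) * (n + 3)) := by
    calc D * (c / 2 * δ) ^ ((n + 4) * (n + 2)) ≤ D * (r i3) ^ ((n + 4) * (n + 2)) := by
          apply mul_le_mul_of_nonneg_left _ hD0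
          exact pow_le_pow_left₀ (by positivity) hr3 _
      _ = D * (r i3 ^ (n + 4)) ^ (n + 2) := by rw [← pow_mul]
      _ ≤ K * (r i2 ^ (n + 3)) ^ (n + 3) := hDA
      _ = K * (r i2) ^ ((n + 3) * (n + 3)) := by rw [← pow_mul]
      _ ≤ K * (B * δ) ^ ((n + 3) * (n + 3)) := by
          apply mul_le_mul_of_nonneg_left _ hK
          exact pow_le_pow_left₀ hr2pos.le hr2 _
  have hexp : (n + 3) * (n + 3) = (n + 4) * (n + 2) + 1 := by ring
  have hD2 : D ≤ M * δ := by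
    have h3 : (D * L) * δ ^ ((n + 4) * (n + 2)) ≤
        (K * B ^ ((n + 3) * (n + 3)) * δ) * δ ^ ((n + 4) * (n + 2)) := by
      calc (D * L) * δ ^ ((n + 4) * (n + 2)) = D * (c / 2 * δ) ^ ((n + 4) * (n + 2)) := by
            rw [mul_pow]; ring
        _ ≤ K * (B * δ) ^ ((n + 3) * (n + 3)) := hD1
        _ = (K * B ^ ((n + 3) * (n + 3)) * δ) * δ ^ ((n + 4) * (n + 2)) := by
            rw [mul_pow, hexp, pow_succ δ]; ring
    have h4 := le_of_mul_le_mul_right h3 (by positivity)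
    rw [hM, div_mul_eq_mul_div, le_div_iff₀ hLpos]
    exact h4
  have hfin : (c / 2) ^ 4 ≤ T * δ := by
    calc (c / 2) ^ 4 ≤ (r i1) ^ 4 := pow_le_pow_left₀ (by positivity) hr1 _
      _ = (r i1 ^ 2) ^ 2 := by ring
      _ ≤ 2 * 36 ^ 3 * D * r i0 ^ 3 := hDB
      _ ≤ 2 * 36 ^ 3 * (M * δ) * A ^ 3 := by
          apply mul_le_mul _ (pow_le_pow_left₀ hr00 hr0 _) (by positivity) (by positivity)
          exact mul_le_mul_of_nonneg_left hD2 (by norm_num)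
      _ = T * δ := by rw [hT]; ring
  linarith

end Pool.Agent.Helper37.FC.Abs
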