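import Mathlib

/-!
Common complements of finitely many subspaces, and a generic vector.
-/

set_option autoImplicit false

namespace Pool.Agent.Helper37.FC.Compl

open Module

variable {A : Type*} [AddCommGroup A] [Module ℝ A] [FiniteDimensional ℝ A]

/-- a vector outside finitely many proper subspaces -/
lemma exists_notMem {ι : Type*} [Finite ι] (Z : ι → Submodule ℝ A) (hZ : ∀ i, Z i ≠ ⊤) :
    ∃ a : A, ∀ i, a ∉ Z i := by
  classical
  have := Fintype.ofFinite ι
  have h1 := Subspace.biUnion_ne_univ_of_top_notMem (k := ℝ) (E := A)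
    (s := Finset.univ.image Z) (by
      intro h
      obtain ⟨i, _, hi⟩ := Finset.mem_image.mp h
      exact hZ i hi)
  obtain ⟨a, ha⟩ := (Set.ne_univ_iff_exists_notMem _).mp h1
  refine ⟨a, fun i hi => ha ?_⟩
  simp only [Set.mem_iUnion]
  exact ⟨Z i, Finset.mem_image_of_mem Z (Finset.mem_univ i), hi⟩

/-- common complement -/
theorem common_complement {ι : Type*} [Finite ι] [Nonempty ι] (q r : ℕ) (hA : finrank ℝ A = q + r)
    (Z : ι → Submodule ℝ A) (hZ : ∀ i, finrank ℝ (Z i) = r) :
    ∃ Q : Submodule ℝ A, finrank ℝ Q = q ∧ ∀ i, Q ⊓ Z i = ⊥ := by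
  induction q generalizing r Z with
  | zero => exact ⟨⊥, finrank_bot ℝ A, fun i => bot_inf_eq _⟩
  | succ q ih =>
    obtain ⟨a, ha⟩ := exists_notMem Z (by
      intro i h
      have h1 := hZ i
      rw [h, finrank_top] at h1
      omega)
    obtain ⟨Q, hQ, hQZ⟩ := ih (r + 1) (by omega) (fun i => Z i ⊔ Submodule.span ℝ {a}) (by
      intro i
      have h0 : a ≠ 0 := fun h => ha i (h ▸ Submodule.zero_mem _)
      have h1 : Z i ⊓ Submodule.span ℝ {a} = ⊥ := by
        rw [Submodule.eq_bot_iff]
        intro x hx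
        obtain ⟨hx1, hx2⟩ := Submodule.mem_inf.mp hx
        obtain ⟨c, rfl⟩ := Submodule.mem_span_singleton.mp hx2
        by_cases hc : c = 0
        · rw [hc, zero_smul]
        · exfalso
          apply ha i
          have := (Z i).smul_mem c⁻¹ hx1
          rwa [smul_smul, inv_mul_cancel₀ hc, one_smul] at this
      have h2 := Submodule.finrank_sup_add_finrank_inf_eq (Z i) (Submodule.span ℝ {a})
      rw [h1, finrank_bot, hZ i, finrank_span_singleton h0] at h2
      omega)
    obtain ⟨i0⟩ := ‹Nonempty ι›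
    · have h0 : a ≠ 0 := fun h => ha i0 (h ▸ Submodule.zero_mem _)
      have haQ : ∀ i, ∀ x ∈ Q, ∀ c : ℝ, x + c • a ∈ Z i → x = 0 ∧ c = 0 := by
        intro i x hx c hxc
        have hxZ : x ∈ Z i ⊔ Submodule.span ℝ {a} := by
          have : x = (x + c • a) + (-c) • a := by rw [neg_smul]; abel
          rw [this]
          exact Submodule.add_mem_sup hxc (Submodule.smul_mem _ _ (Submodule.mem_span_singleton_self a))
        have hx0 : x = 0 := by
          have h3 : x ∈ Q ⊓ (Z i ⊔ Submodule.span ℝ {a}) := ⟨hx, hxZ⟩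
          rw [hQZ i] at h3
          exact (Submodule.mem_bot ℝ).mp h3
        refine ⟨hx0, ?_⟩
        rw [hx0, zero_add] at hxc
        by_contra hc
        apply ha i
        have := (Z i).smul_mem c⁻¹ hxc
        rwa [smul_smul, inv_mul_cancel₀ hc, one_smul] at this
      refine ⟨Q ⊔ Submodule.span ℝ {a}, ?_, ?_⟩
      · have h1 : Q ⊓ Submodule.span ℝ {a} = ⊥ := by
          rw [Submodule.eq_bot_iff]
          intro x hx
          obtain ⟨hx1, hx2⟩ := Submodule.mem_inf.mp hx
          obtain ⟨c, rfl⟩ := Submodule.mem_span_singleton.mp hx2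
          have h4 := haQ i0 (c • a) hx1 (-c) (by rw [neg_smul, add_neg_cancel]; exact Submodule.zero_mem _)
          exact h4.1
        have h2 := Submodule.finrank_sup_add_finrank_inf_eq Q (Submodule.span ℝ {a})
        rw [h1, finrank_bot, hQ, finrank_span_singleton h0] at h2
        omega
      · intro i
        rw [Submodule.eq_bot_iff]
        intro x hx
        obtain ⟨hx1, hx2⟩ := Submodule.mem_inf.mp hx
        obtain ⟨y, hy, z, hz, rfl⟩ := Submodule.mem_sup.mp hx1
        obtain ⟨c, rfl⟩ := Submodule.mem_span_singleton.mp hz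
        obtain ⟨h5, h6⟩ := haQ i y hy c hx2
        rw [h5, h6, zero_smul, add_zero]

end Pool.Agent.Helper37.FC.Compl
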