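import Pool.Agent.Helper37.FC.FaceIneq
import Pool.Agent.Helper37.FC.Compl
import Pool.Agent.Helper37.FC.WJ

/-!
The main inequality: the sum of `vol(F)^(1 - 1/(k+1)^2)` over the `(k+1)`-faces is at most
`C V_k^((k+2)/(k+1))`.
-/

set_option autoImplicit false

namespace Pool.Agent.Helper37.FC.Main

open scoped BigOperators RealInnerProductSpace MeasureTheory
open MeasureTheory Module Measure

noncomputable section

variable {E : Type*} [NormedAddCommGroup E] [InnerProductSpace ℝ E] [FiniteDimensional ℝ E]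

/-- affine functions vanishing on a set -/
def Zs (F : Set E) : Submodule ℝ ((E →ₗ[ℝ] ℝ) × ℝ) where
  carrier := {a | ∀ x ∈ F, a.1 x + a.2 = 0}
  add_mem' := by
    intro a b ha hb x hx
    have h1 := ha x hx
    have h2 := hb x hx
    simp only [Prod.fst_add, Prod.snd_add, LinearMap.add_apply]
    linarith
  zero_mem' := by intro x _; simp
  smul_mem' := by
    intro c a ha x hx
    have h1 := ha x hx
    simp only [Prod.smul_fst, Prod.smul_snd, LinearMap.smul_apply, smul_eq_mul]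
    rw [← mul_add, h1, mul_zero]

omit [FiniteDimensional ℝ E] in
lemma mem_Zs (F : Set E) (a : (E →ₗ[ℝ] ℝ) × ℝ) : a ∈ Zs F ↔ ∀ x ∈ F, a.1 x + a.2 = 0 := Iff.rfl

lemma finrank_Zs (F : Set E) (hF : F.Nonempty) :
    finrank ℝ (Zs F) + finrank ℝ (vectorSpan ℝ F) = finrank ℝ E := by
  obtain ⟨x0, hx0⟩ := hF
  -- equivalence with the dual annihilator
  let φ : Zs F →ₗ[ℝ] (vectorSpan ℝ F).dualAnnihilator :=
    LinearMap.codRestrict _ ((LinearMap.fst ℝ (E →ₗ[ℝ] ℝ) ℝ) ∘ₗ (Zs F).subtype) (by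
      intro a
      rw [Submodule.mem_dualAnnihilator]
      intro w hw
      apply FaceIneq.vanish_vectorSpan F a.1.1 _ w hw
      intro z hz z' hz'
      have h1 := a.2 z hz
      have h2 := a.2 z' hz'
      linarith)
  have hinj : Function.Injective φ := by
    intro a b hab
    have h1 : a.1.1 = b.1.1 := congrArg Subtype.val hab
    have h2 := a.2 x0 hx0
    have h3 := b.2 x0 hx0
    have h4 : a.1.2 = b.1.2 := by
      have : a.1.1 x0 = b.1.1 x0 := by rw [h1]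
      linarith
    exact Subtype.ext (Prod.ext h1 h4)
  have hsurj : Function.Surjective φ := by
    rintro ⟨a, ha⟩
    refine ⟨⟨(a, -a x0), ?_⟩, ?_⟩
    · intro x hx
      rw [Submodule.mem_dualAnnihilator] at ha
      have h1 := ha (x - x0) (vsub_mem_vectorSpan ℝ hx hx0)
      rw [map_sub] at h1
      simpa [sub_eq_add_neg] using h1
    · rfl
  have h1 := (LinearEquiv.ofBijective φ ⟨hinj, hsurj⟩).finrank_eq
  have h2 := Subspace.finrank_add_finrank_dualAnnihilator_eq (vectorSpan ℝ F)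
  omega

lemma finrank_A : finrank ℝ ((E →ₗ[ℝ] ℝ) × ℝ) = finrank ℝ E + 1 := by
  rw [Module.finrank_prod, Module.finrank_self]
  have : finrank ℝ (E →ₗ[ℝ] ℝ) = finrank ℝ E := Subspace.dual_finrank_eq
  omega

/-- an exposed subset is determined by the affine functions vanishing on it -/
lemma exposed_eq_of_Zs (P F F' : Set E) (hF : IsExposed ℝ P F) (hFne : F.Nonempty)
    (hF' : IsExposed ℝ P F') (hF'ne : F'.Nonempty) (hZ : Zs F = Zs F') : F = F' := by
  have key : ∀ F F' : Set E, IsExposed ℝ P F → F.Nonempty → IsExposed ℝ P F' → Zs F = Zs F' → F' ⊆ F := by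
    intro F F' hF hFne hF' hZ x hx
    obtain ⟨p, hp⟩ := hFne
    obtain ⟨l, hl⟩ := hF ⟨p, hp⟩
    have h1 : ((l : E →ₗ[ℝ] ℝ), -l p) ∈ Zs F := by
      intro y hy
      have hpp := hp
      rw [hl] at hy hpp
      have h2 : l y = l p := le_antisymm (hpp.2 y hy.1) (hy.2 p hpp.1)
      show l y + -l p = 0
      rw [h2]; ring
    rw [hZ] at h1
    have h2 := h1 x hx
    have h3 : l x = l p := by
      have : l x + -l p = 0 := h2
      linarith
    have hpp := hp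
    rw [hl] at hpp
    rw [hl]
    refine ⟨hF'.subset hx, fun y hy => ?_⟩
    rw [h3]
    exact hpp.2 y hy
  exact Set.Subset.antisymm (key F' F hF' hF'ne hF hZ.symm) (key F F' hF hFne hF' hZ)

/-- two affine functions of a common complement vanishing on a facet are proportional -/
lemma prop_of_vanish (P F G : Set E) (k : ℕ) (hFP : F ⊆ P)
    (hFdim : finrank ℝ (vectorSpan ℝ F) = k + 1)
    (hG : IsExposed ℝ P G) (hGne : G.Nonempty) (hGdim : finrank ℝ (vectorSpan ℝ G) = k)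
    (hGF : G ⊆ F) (Q : Submodule ℝ ((E →ₗ[ℝ] ℝ) × ℝ)) (hQ : Q ⊓ Zs F = ⊥)
    (a b : (E →ₗ[ℝ] ℝ) × ℝ) (ha : a ∈ Q) (hb : b ∈ Q) (haG : a ∈ Zs G) (hbG : b ∈ Zs G)
    (hb0 : b ≠ 0) : ∃ t : ℝ, a = t • b := by
  obtain ⟨g, hg⟩ := hGne
  obtain ⟨l, hl⟩ := hG ⟨g, hg⟩
  have hlG : ∀ x ∈ G, (l : E →ₗ[ℝ] ℝ) x = (l : E →ₗ[ℝ] ℝ) g := by
    intro x hx
    have h1 := hg
    rw [hl] at h1 hx
    exact le_antisymm (h1.2 x hx.1) (hx.2 g h1.1)
  obtain ⟨z, hz, hzG⟩ : ∃ z ∈ F, z ∉ G := by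
    by_contra hcon
    push Not at hcon
    have h2 := Submodule.finrank_mono (vectorSpan_mono ℝ (show F ⊆ G from hcon))
    rw [hGdim] at h2
    omega
  have hlt : l z ≠ l g := by
    intro h
    apply hzG
    have h1 := hg
    rw [hl] at h1
    rw [hl]
    refine ⟨hFP hz, fun y hy => ?_⟩
    rw [h]
    exact h1.2 y hy
  have hy : z - g ∈ vectorSpan ℝ F := vsub_mem_vectorSpan ℝ hz (hGF hg)
  have hly : (l : E →ₗ[ℝ] ℝ) (z - g) ≠ 0 := by
    rw [map_sub, sub_ne_zero]; exact hlt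
  obtain ⟨c1, hc1, -⟩ := FaceIneq.facet_values F G k hFdim hGF hGdim g hg a.1 a.2 haG
    (l : E →ₗ[ℝ] ℝ) hlG (z - g) hy hly
  obtain ⟨c2, hc2, -⟩ := FaceIneq.facet_values F G k hFdim hGF hGdim g hg b.1 b.2 hbG
    (l : E →ₗ[ℝ] ℝ) hlG (z - g) hy hly
  have hc2ne : c2 ≠ 0 := by
    intro h
    apply hb0
    have h1 : b ∈ Q ⊓ Zs F := by
      refine ⟨hb, ?_⟩
      intro x hx
      rw [hc2 x hx, h, zero_mul]
    rw [hQ] at h1
    exact (Submodule.mem_bot ℝ).mp h1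
  refine ⟨c1 / c2, ?_⟩
  have h1 : a - (c1 / c2) • b ∈ Q ⊓ Zs F := by
    refine ⟨Q.sub_mem ha (Q.smul_mem _ hb), ?_⟩
    intro x hx
    have e1 := hc1 x hx
    have e2 := hc2 x hx
    simp only [Prod.fst_sub, Prod.snd_sub, Prod.smul_fst, Prod.smul_snd, LinearMap.sub_apply,
      LinearMap.smul_apply, smul_eq_mul]
    have e3 : a.1 x - c1 / c2 * b.1 x + (a.2 - c1 / c2 * b.2)
        = (a.1 x + a.2) - c1 / c2 * (b.1 x + b.2) := by ring
    rw [e3, e1, e2]
    field_simp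
    ring
  rw [hQ] at h1
  exact sub_eq_zero.mp ((Submodule.mem_bot ℝ).mp h1)

/-- final numeric step: the sum of the powers of the volumes -/
lemma numeric2 {J : Type*} [Fintype J] (k : ℕ) (hk : 1 ≤ k) (vol T : J → ℝ) (hvol : ∀ F, 0 ≤ vol F)
    (hT : ∀ F, vol F ^ (((k + 1 : ℕ) : ℝ) - ((k + 1 : ℕ) : ℝ)⁻¹) / ((k + 1 : ℕ) : ℝ) ^ (k + 1 + 1) ≤ T F)
    (Y : ℝ)
    (hWJ : (∑ F, (T F) ^ (((k + 1 + 1 : ℕ) : ℝ) - 1)⁻¹) ^ (k + 1 + 1 - 1) ≤ Y ^ (k + 1 + 1)) :
    (∑ F, vol F ^ ((((k + 1 : ℕ) : ℝ) - ((k + 1 : ℕ) : ℝ)⁻¹) * ((k + 1 : ℕ) : ℝ)⁻¹)) ^ (k + 1) ≤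
      (((k + 1 : ℕ) : ℝ) * Y) ^ (k + 1 + 1) := by
  set m : ℝ := ((k + 1 : ℕ) : ℝ) with hm
  have hkR : (1 : ℝ) ≤ k := by exact_mod_cast hk
  have hm2 : 2 ≤ m := by rw [hm]; push_cast; linarith
  have hm0 : 0 < m := by linarith
  have hn1 : (((k + 1 + 1 : ℕ) : ℝ) - 1)⁻¹ = m⁻¹ := by rw [hm]; push_cast; ring
  rw [hn1] at hWJ
  have hn2 : k + 1 + 1 - 1 = k + 1 := rfl
  rw [hn2] at hWJ
  set s : ℝ := (m - m⁻¹) * m⁻¹ with hs
  have hminv0 : 0 < m⁻¹ := inv_pos.mpr hm0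
  have hmm : m * m⁻¹ = 1 := mul_inv_cancel₀ hm0.ne'
  -- termwise
  have hterm : ∀ F, vol F ^ s ≤ (m ^ (k + 1 + 1)) ^ m⁻¹ * (T F) ^ m⁻¹ := by
    intro F
    have h1 := hT F
    rw [div_le_iff₀ (by positivity)] at h1
    have hT0 : 0 ≤ T F := by
      have : 0 ≤ vol F ^ (m - m⁻¹) / m ^ (k + 1 + 1) :=
        div_nonneg (Real.rpow_nonneg (hvol F) _) (by positivity)
      exact this.trans (hT F)
    rw [hs, Real.rpow_mul (hvol F), ← Real.mul_rpow (by positivity) hT0]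
    apply Real.rpow_le_rpow (Real.rpow_nonneg (hvol F) _) _ hminv0.le
    rw [mul_comm]
    exact h1
  have hXs : ∑ F, vol F ^ s ≤ (m ^ (k + 1 + 1)) ^ m⁻¹ * ∑ F, (T F) ^ m⁻¹ := by
    rw [Finset.mul_sum]
    exact Finset.sum_le_sum (fun F _ => hterm F)
  calc (∑ F, vol F ^ s) ^ (k + 1) ≤ ((m ^ (k + 1 + 1)) ^ m⁻¹ * ∑ F, (T F) ^ m⁻¹) ^ (k + 1) :=
        pow_le_pow_left₀ (Finset.sum_nonneg (fun F _ => Real.rpow_nonneg (hvol F) _)) hXs _
    _ = ((m ^ (k + 1 + 1)) ^ m⁻¹) ^ (k + 1) * (∑ F, (T F) ^ m⁻¹) ^ (k + 1) := mul_pow _ _ _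
    _ = m ^ (k + 1 + 1) * (∑ F, (T F) ^ m⁻¹) ^ (k + 1) := by
        congr 1
        rw [← Real.rpow_natCast ((m ^ (k + 1 + 1)) ^ m⁻¹) (k + 1), ← Real.rpow_mul (by positivity)]
        have : m⁻¹ * ((k + 1 : ℕ) : ℝ) = 1 := by rw [← hm, mul_comm]; exact hmm
        rw [this, Real.rpow_one]
    _ ≤ m ^ (k + 1 + 1) * Y ^ (k + 1 + 1) := mul_le_mul_of_nonneg_left hWJ (by positivity)
    _ = (m * Y) ^ (k + 1 + 1) := (mul_pow _ _ _).symm

variable [MeasurableSpace E] [BorelSpace E]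

/-- The main inequality, in its strong form: the sum of the powers of the volumes. -/
theorem main_core (S : Finset E) (k : ℕ) (hk : 1 ≤ k)
    {J L : Type*} [Fintype J] [Fintype L] [Nonempty J]
    (Fs : J → Set E) (Gs : L → Set E) (hFinj : Function.Injective Fs) (hGinj : Function.Injective Gs)
    (hFall : ∀ F : Set E, (F.Nonempty ∧ IsExposed ℝ (convexHull ℝ (S : Set E)) F ∧
      finrank ℝ (vectorSpan ℝ F) = k + 1) ↔ F ∈ Set.range Fs)
    (hGall : ∀ G : Set E, (G.Nonempty ∧ IsExposed ℝ (convexHull ℝ (S : Set E)) G ∧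
      finrank ℝ (vectorSpan ℝ G) = k) ↔ G ∈ Set.range Gs) :
    (∑ F, ((μHE[k + 1] : Measure E) (Fs F)).toReal ^
        ((((k + 1 : ℕ) : ℝ) - ((k + 1 : ℕ) : ℝ)⁻¹) * ((k + 1 : ℕ) : ℝ)⁻¹)) ^ (k + 1) ≤
      (((k + 1 : ℕ) : ℝ) * (2 * ((k + 1 + 1 : ℕ) : ℝ) ^ 2 *
        ∑ G, ((μHE[k] : Measure E) (Gs G)).toReal)) ^ (k + 1 + 1) := by
  classical
  set P := convexHull ℝ (S : Set E) with hP
  have hFprop : ∀ F, (Fs F).Nonempty ∧ IsExposed ℝ P (Fs F) ∧
      finrank ℝ (vectorSpan ℝ (Fs F)) = k + 1 := fun F => (hFall (Fs F)).mpr ⟨F, rfl⟩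
  have hGprop : ∀ G, (Gs G).Nonempty ∧ IsExposed ℝ P (Gs G) ∧
      finrank ℝ (vectorSpan ℝ (Gs G)) = k := fun G => (hGall (Gs G)).mpr ⟨G, rfl⟩
  -- the common complement
  obtain ⟨F0⟩ := ‹Nonempty J›
  have hJne : Nonempty J := ⟨F0⟩
  have hdE : k + 1 ≤ finrank ℝ E := by
    rw [← (hFprop F0).2.2]
    exact Submodule.finrank_le _
  set r := finrank ℝ E - (k + 1) with hr
  have hZr : ∀ F, finrank ℝ (Zs (Fs F)) = r := by
    intro F
    have h1 := finrank_Zs (Fs F) (hFprop F).1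
    rw [(hFprop F).2.2] at h1
    omega
  have hAr : finrank ℝ ((E →ₗ[ℝ] ℝ) × ℝ) = (k + 1 + 1) + r := by
    rw [finrank_A]; omega
  obtain ⟨Q, hQ, hQZ⟩ := Compl.common_complement (k + 1 + 1) r hAr (fun F => Zs (Fs F)) hZr
  have hsup : ∀ F, Q ⊔ Zs (Fs F) = ⊤ := by
    intro F
    apply Submodule.eq_top_of_finrank_eq
    have h1 := Submodule.finrank_sup_add_finrank_inf_eq Q (Zs (Fs F))
    rw [hQZ F, finrank_bot, hQ, hZr F] at h1
    omega
  -- the generic affine function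
  obtain ⟨ψ, hψ⟩ := Compl.exists_notMem (ι := {p : J × J // p.1 ≠ p.2})
    (fun p => Q ⊔ (Zs (Fs p.1.1) ⊓ Zs (Fs p.1.2))) (by
      intro p htop
      have hne : Zs (Fs p.1.1) ≠ Zs (Fs p.1.2) := by
        intro h
        apply p.2
        apply hFinj
        exact exposed_eq_of_Zs P _ _ (hFprop _).2.1 (hFprop _).1 (hFprop _).2.1 (hFprop _).1 h
      have h1 := Submodule.finrank_sup_add_finrank_inf_eq Q (Zs (Fs p.1.1) ⊓ Zs (Fs p.1.2))
      have h2 : finrank ℝ (Zs (Fs p.1.1) ⊓ Zs (Fs p.1.2) : Submodule ℝ _) < r := by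
        rw [← hZr p.1.1]
        apply Submodule.finrank_lt_finrank_of_lt
        refine lt_of_le_of_ne inf_le_left ?_
        intro h
        apply hne
        have h3 : Zs (Fs p.1.1) ≤ Zs (Fs p.1.2) := inf_eq_left.mp h
        exact Submodule.eq_of_le_of_finrank_eq h3 (by rw [hZr, hZr])
      rw [htop, finrank_top, hAr, hQ] at h1
      omega)
  have hqex : ∀ F : J, ∃ q ∈ Q, ψ - q ∈ Zs (Fs F) := by
    intro F
    have h1 : ψ ∈ Q ⊔ Zs (Fs F) := by rw [hsup F]; trivial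
    obtain ⟨q, hq, z, hz, hqz⟩ := Submodule.mem_sup.mp h1
    refine ⟨q, hq, ?_⟩
    rw [← hqz, add_sub_cancel_left]
    exact hz
  choose q hqQ hqZ using hqex
  have hqne : ∀ F F' : J, q F = q F' → F = F' := by
    intro F F' h
    by_contra hne
    apply hψ ⟨(F, F'), hne⟩
    rw [Submodule.mem_sup]
    refine ⟨q F, hqQ F, ψ - q F, ⟨hqZ F, ?_⟩, by abel⟩
    rw [h]; exact hqZ F'
  -- the directions
  have huex : ∀ G : L, ∃ v ∈ Q, v ∈ Zs (Gs G) ∧ ∀ F : J, Gs G ⊆ Fs F → v ≠ 0 := by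
    intro G
    by_cases hex : ∃ F : J, Gs G ⊆ Fs F
    · obtain ⟨F1, hF1⟩ := hex
      obtain ⟨⟨g, hg⟩, hexp, hdim⟩ := hGprop G
      obtain ⟨l, hl⟩ := hexp ⟨g, hg⟩
      have hgg := hg
      rw [hl] at hgg
      obtain ⟨z, hz, hzG⟩ : ∃ z ∈ Fs F1, z ∉ Gs G := by
        by_contra hcon
        push Not at hcon
        have h2 := Submodule.finrank_mono (vectorSpan_mono ℝ (show Fs F1 ⊆ Gs G from hcon))
        rw [hdim, (hFprop F1).2.2] at h2
        omega
      have hlz : l z ≠ l g := by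
        intro h
        apply hzG
        rw [hl]
        refine ⟨(hFprop F1).2.1.subset hz, fun y hy => ?_⟩
        rw [h]
        exact hgg.2 y hy
      have hbT : (((l : E →ₗ[ℝ] ℝ), -l g) : (E →ₗ[ℝ] ℝ) × ℝ) ∈ Q ⊔ Zs (Fs F1) := by
        rw [hsup F1]; trivial
      obtain ⟨v, hv, z', hz', hvz⟩ := Submodule.mem_sup.mp hbT
      refine ⟨v, hv, ?_, ?_⟩
      · intro x hx
        have h1 := hz' x (hF1 hx)
        have h2 : v = ((l : E →ₗ[ℝ] ℝ), -l g) - z' := by rw [← hvz]; abel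
        have hxx := hx
        rw [hl] at hxx
        have h3 : l x = l g := le_antisymm (hgg.2 x hxx.1) (hxx.2 g hgg.1)
        rw [h2]
        show ((l : E →ₗ[ℝ] ℝ) - z'.1) x + (-l g - z'.2) = 0
        rw [LinearMap.sub_apply]
        have h4 : (l : E →ₗ[ℝ] ℝ) x = l g := h3
        rw [h4]
        linarith
      · intro F _ hv0
        rw [hv0, zero_add] at hvz
        rw [hvz] at hz'
        have h5 := hz' z hz
        have h6 : l z + -l g = 0 := h5
        apply hlz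
        linarith
    · push Not at hex
      exact ⟨0, Q.zero_mem, Submodule.zero_mem _, fun F hF => absurd hF (hex F)⟩
  choose u huQ huZ hune using huex
  -- coordinates
  have hfree : Module.Free ℝ Q := Module.Free.of_divisionRing ℝ Q
  let e : Q ≃ₗ[ℝ] (Fin (k + 1 + 1) → ℝ) := LinearEquiv.ofFinrankEq _ _ (by rw [hQ]; simp)
  set x : J → (Fin (k + 1 + 1) → ℝ) := fun F => e ⟨q F, hqQ F⟩ with hx
  set uc : L → (Fin (k + 1 + 1) → ℝ) := fun G => e ⟨u G, huQ G⟩ with huc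
  set a : L → (Fin (k + 1 + 1) → ℝ) := fun G => if h : ∃ F : J, Gs G ⊆ Fs F then x h.choose else 0 with ha
  set w : L → ℝ := fun G => ((μHE[k] : Measure E) (Gs G)).toReal with hw
  have hw0 : ∀ G, 0 ≤ w G := fun G => ENNReal.toReal_nonneg
  have hWJ := WJ.weighted_joints (n := k + 1 + 1) (by omega) x a uc (fun F G => Gs G ⊆ Fs F)
    (by
      intro F G hFG
      have hex : ∃ F : J, Gs G ⊆ Fs F := ⟨F, hFG⟩
      have haG : a G = x hex.choose := by simp only [ha]; rw [dif_pos hex]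
      have hF1 := hex.choose_spec
      set F1 := hex.choose with hF1def
      obtain ⟨t, ht⟩ := prop_of_vanish P (Fs F) (Gs G) k (hFprop F).2.1.subset (hFprop F).2.2
        (hGprop G).2.1 (hGprop G).1 (hGprop G).2.2 hFG Q (hQZ F) (q F - q F1) (u G)
        (Q.sub_mem (hqQ F) (hqQ F1)) (huQ G) (by
          intro y hy
          have h1 := hqZ F y (hFG hy)
          have h2 := hqZ F1 y (hF1 hy)
          simp only [Prod.fst_sub, Prod.snd_sub, LinearMap.sub_apply] at h1 h2 ⊢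
          linarith) (huZ G) (hune G F hFG)
      refine ⟨t, ?_⟩
      have h3 : (⟨q F, hqQ F⟩ : Q) = ⟨q F1, hqQ F1⟩ + t • ⟨u G, huQ G⟩ := by
        apply Subtype.ext
        simp only [Submodule.coe_add, Submodule.coe_smul]
        rw [← ht]; abel
      intro i
      have h4 : x F = x F1 + t • uc G := by
        simp only [hx, huc]
        rw [h3, map_add, map_smul]
      rw [h4, haG]
      rfl)
    (by
      intro F F' G _ _ h
      apply hqne
      have h1 : (⟨q F, hqQ F⟩ : Q) = ⟨q F', hqQ F'⟩ := e.injective h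
      exact congrArg Subtype.val h1)
    w hw0
  -- facet inequality for each face
  have hface : ∀ F : J, (((μHE[k + 1] : Measure E) (Fs F)).toReal) ^ (((k + 1 : ℕ) : ℝ) - ((k + 1 : ℕ) : ℝ)⁻¹) /
        ((k + 1 : ℕ) : ℝ) ^ (k + 1 + 1) ≤ WJ.tw uc (fun F G => Gs G ⊆ Fs F) w F := by
    intro F
    have h1 := FaceIneq.face_ineq S k (Fs F) (hFprop F).1 (hFprop F).2.1 (hFprop F).2.2 Gs hGinj
      hGall u (fun G _ => huZ G) (by
        intro G hG
        by_contra hcon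
        push Not at hcon
        have h2 : u G ∈ Q ⊓ Zs (Fs F) := ⟨huQ G, hcon⟩
        rw [hQZ F] at h2
        exact hune G F hG ((Submodule.mem_bot ℝ).mp h2))
    refine h1.trans ?_
    unfold WJ.tw
    rw [Finset.sum_filter, Finset.sum_filter]
    apply Finset.sum_le_sum
    intro τ _
    by_cases hLI : LinearIndependent ℝ (fun i => u (τ i))
    · rw [if_pos hLI]
      by_cases hinc : ∀ i, Gs (τ i) ⊆ Fs F
      · have hgood : WJ.good uc (fun F G => Gs G ⊆ Fs F) F τ := by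
          refine ⟨hinc, ?_⟩
          apply LinearIndependent.of_comp (Q.subtype ∘ₗ e.symm.toLinearMap)
          have : ((Q.subtype ∘ₗ e.symm.toLinearMap) ∘ fun i => uc (τ i)) = fun i => u (τ i) := by
            funext i
            simp [huc]
          rw [this]
          exact hLI
        rw [if_pos hgood]
        apply le_of_eq
        apply Finset.prod_congr rfl
        intro i _
        rw [if_pos (hinc i)]
      · push Not at hinc
        obtain ⟨i, hi⟩ := hinc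
        have h0 : ∏ i, (if Gs (τ i) ⊆ Fs F then ((μHE[k] : Measure E) (Gs (τ i))).toReal else 0) = 0 := by
          apply Finset.prod_eq_zero (Finset.mem_univ i)
          rw [if_neg hi]
        rw [h0]
        split_ifs
        · exact Finset.prod_nonneg (fun i _ => hw0 _)
        · exact le_rfl
    · rw [if_neg hLI]
      split_ifs
      · exact Finset.prod_nonneg (fun i _ => hw0 _)
      · exact le_rfl
  exact numeric2 k hk _ _ (fun F => ENNReal.toReal_nonneg) hface _ hWJ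

end

end Pool.Agent.Helper37.FC.Main
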