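import Pool.Agent.Helper37.FC.Defs
import Pool.Agent.Helper37.FC.Main

/-!
Inequalities between the face contents of a polytope.
-/

set_option autoImplicit false

namespace Pool.Agent.Helper37.FC.Poly

open scoped BigOperators RealInnerProductSpace MeasureTheory
open MeasureTheory Module Measure

noncomputable section

lemma finite_faces {d : ℕ} (P : Set (EuclideanSpace ℝ (Fin d))) (hP : IsPolytope d P) (k : ℕ) :
    Finite {F : Set (EuclideanSpace ℝ (Fin d)) // IsFace k P F} := by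
  obtain ⟨⟨S, rfl⟩, -⟩ := hP
  have h := Faces.faces_finite S
  exact (h.subset (fun F (hF : IsFace k _ F) => hF.2.1)).to_subtype

lemma face_lt_top {d : ℕ} (P : Set (EuclideanSpace ℝ (Fin d))) (hP : IsPolytope d P) (k : ℕ)
    (F : Set (EuclideanSpace ℝ (Fin d))) (hF : IsFace k P F) :
    (μHE[k] : Measure (EuclideanSpace ℝ (Fin d))) F < ⊤ := by
  obtain ⟨⟨S, rfl⟩, -⟩ := hP
  have hPc : IsCompact (convexHull ℝ (S : Set (EuclideanSpace ℝ (Fin d)))) :=
    S.finite_toSet.isCompact_convexHull ℝ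
  exact Faces.muHE_lt_top F (hPc.isBounded.subset hF.2.1.subset) k hF.2.2

lemma faceContent_lt_top {d : ℕ} (P : Set (EuclideanSpace ℝ (Fin d))) (hP : IsPolytope d P)
    (k : ℕ) : faceContent k P < ⊤ := by
  have := finite_faces P hP k
  have := Fintype.ofFinite {F : Set (EuclideanSpace ℝ (Fin d)) // IsFace k P F}
  unfold faceContent
  rw [tsum_fintype, ENNReal.sum_lt_top]
  intro F _
  exact face_lt_top P hP k F.1 F.2

lemma faceContent_toReal {d : ℕ} (P : Set (EuclideanSpace ℝ (Fin d))) (hP : IsPolytope d P)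
    (k : ℕ) [Fintype {F : Set (EuclideanSpace ℝ (Fin d)) // IsFace k P F}] :
    (faceContent k P).toReal = ∑ F : {F : Set (EuclideanSpace ℝ (Fin d)) // IsFace k P F},
      ((μHE[k] : Measure (EuclideanSpace ℝ (Fin d))) F.1).toReal := by
  unfold faceContent
  rw [tsum_fintype, ENNReal.toReal_sum]
  intro F _
  exact (face_lt_top P hP k F.1 F.2).ne

section general
variable {E : Type*} [NormedAddCommGroup E] [InnerProductSpace ℝ E] [FiniteDimensional ℝ E]
  [MeasurableSpace E] [BorelSpace E]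

/-- a set of dimension `k` and diameter at most `D` has `k`-volume at most that of a ball of
radius `D` -/
lemma muHE_le_ball (G : Set E) (k : ℕ) (hk : 0 < k)
    (hr : finrank ℝ (vectorSpan ℝ G) = k) (D : ℝ) (hD : ∀ x ∈ G, ∀ y ∈ G, ‖x - y‖ ≤ D) :
    (μHE[k] : Measure E) G ≤ (ENNReal.ofReal D) ^ k *
      ENNReal.ofReal (√Real.pi ^ k / Real.Gamma (k / 2 + 1)) := by
  rcases G.eq_empty_or_nonempty with h | ⟨x0, hx0⟩
  · rw [h, measure_empty]; exact bot_le
  set W := vectorSpan ℝ G with hW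
  have hWnt : Nontrivial W := by
    apply Module.nontrivial_of_finrank_pos (R := ℝ)
    omega
  let f : W → E := fun w => (w : E) + x0
  have hf : Isometry f := by
    apply Isometry.of_dist_eq
    intro a b
    simp [f, Subtype.dist_eq]
  set K : Set W := f ⁻¹' G with hK
  have hGK : G = f '' K := by
    ext z
    constructor
    · intro hz
      refine ⟨⟨z - x0, vsub_mem_vectorSpan ℝ hz hx0⟩, ?_, ?_⟩
      · rw [hK, Set.mem_preimage]
        simpa [f] using hz
      · simp [f]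
    · rintro ⟨w, hw, rfl⟩
      exact hw
  have hKb : K ⊆ Metric.closedBall (0 : W) D := by
    intro w hw
    rw [mem_closedBall_zero_iff]
    have h1 := hD _ hw x0 hx0
    simpa [f] using h1
  have h2 : (μHE[k] : Measure E) G = (volume : Measure W) K := by
    rw [hGK, hf.euclideanHausdorffMeasure_image, ← hr,
      InnerProductSpace.euclideanHausdorffMeasure_eq_volume]
  rw [h2]
  refine (measure_mono hKb).trans ?_
  rw [InnerProductSpace.volume_closedBall, hr]

end general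

/-- The total area of the two-dimensional faces of a polytope is controlled by its diameter and
the total length of its edges. -/
theorem two_one {d : ℕ} (P : Set (EuclideanSpace ℝ (Fin d))) (hP : IsPolytope d P) (D : ℝ)
    (hD0 : 0 ≤ D) (hD : ∀ x ∈ P, ∀ y ∈ P, ‖x - y‖ ≤ D) :
    (faceContent 2 P).toReal ^ 2 ≤ 2 * 36 ^ 3 * D * (faceContent 1 P).toReal ^ 3 := by
  have hfin2 := finite_faces P hP 2
  have hfin1 := finite_faces P hP 1
  have hft2 := Fintype.ofFinite {F : Set (EuclideanSpace ℝ (Fin d)) // IsFace 2 P F}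
  have hft1 := Fintype.ofFinite {F : Set (EuclideanSpace ℝ (Fin d)) // IsFace 1 P F}
  have hrhs : 0 ≤ 2 * 36 ^ 3 * D * (faceContent 1 P).toReal ^ 3 :=
    mul_nonneg (mul_nonneg (by positivity) hD0) (pow_nonneg ENNReal.toReal_nonneg _)
  rcases isEmpty_or_nonempty {F : Set (EuclideanSpace ℝ (Fin d)) // IsFace 2 P F} with he | hne
  · have h0 : faceContent 2 P = 0 := by
      unfold faceContent
      rw [tsum_empty]
    rw [h0]
    simpa using hrhs
  obtain ⟨S, hS⟩ := hP.1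
  have hmain := Main.main_core S 1 le_rfl
    (fun F : {F : Set (EuclideanSpace ℝ (Fin d)) // IsFace 2 P F} => F.1)
    (fun F : {F : Set (EuclideanSpace ℝ (Fin d)) // IsFace 1 P F} => F.1)
    Subtype.val_injective Subtype.val_injective
    (by
      intro F
      rw [← hS]
      exact ⟨fun h => ⟨⟨F, h⟩, rfl⟩, fun ⟨F', hF'⟩ => hF' ▸ F'.2⟩)
    (by
      intro F
      rw [← hS]
      exact ⟨fun h => ⟨⟨F, h⟩, rfl⟩, fun ⟨F', hF'⟩ => hF' ▸ F'.2⟩)
  rw [← faceContent_toReal P hP 1] at hmain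
  rw [faceContent_toReal P hP 2]
  set Z := (faceContent 1 P).toReal with hZ
  have hZ0 : 0 ≤ Z := ENNReal.toReal_nonneg
  have hexp : ((((1 + 1 : ℕ) : ℝ) - ((1 + 1 : ℕ) : ℝ)⁻¹) * ((1 + 1 : ℕ) : ℝ)⁻¹) = (3 / 4 : ℝ) := by
    norm_num
  rw [hexp] at hmain
  have hc : (((1 + 1 : ℕ) : ℝ) * (2 * ((1 + 1 + 1 : ℕ) : ℝ) ^ 2 * Z)) ^ (1 + 1 + 1) = (36 * Z) ^ 3 := by
    norm_num
    ring
  rw [hc] at hmain
  have hmain' : (∑ F : {F : Set (EuclideanSpace ℝ (Fin d)) // IsFace 2 P F},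
      ((μHE[2] : Measure (EuclideanSpace ℝ (Fin d))) F.1).toReal ^ (3 / 4 : ℝ)) ^ 2 ≤ (36 * Z) ^ 3 := hmain
  set vol : {F : Set (EuclideanSpace ℝ (Fin d)) // IsFace 2 P F} → ℝ :=
    fun F => ((μHE[2] : Measure (EuclideanSpace ℝ (Fin d))) F.1).toReal with hvol
  have hvol0 : ∀ F, 0 ≤ vol F := fun F => ENNReal.toReal_nonneg
  set M : ℝ := D ^ 2 * Real.pi with hM
  have hM0 : 0 ≤ M := by positivity
  have hvolM : ∀ F, vol F ≤ M := by
    intro F
    have h1 := muHE_le_ball F.1 2 two_pos F.2.2.2 D (fun x hx y hy =>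
      hD x (F.2.2.1.subset hx) y (F.2.2.1.subset hy))
    have h2 : (√Real.pi ^ 2 / Real.Gamma (((2 : ℕ) : ℝ) / 2 + 1)) = Real.pi := by
      rw [Real.sq_sqrt Real.pi_pos.le]
      have : ((2 : ℕ) : ℝ) / 2 + 1 = 2 := by norm_num
      rw [this, Real.Gamma_two, div_one]
    rw [h2, ← ENNReal.ofReal_pow hD0, ← ENNReal.ofReal_mul (by positivity)] at h1
    exact ENNReal.toReal_le_of_le_ofReal hM0 h1
  have hsum : ∑ F, vol F ≤ M ^ (1 / 4 : ℝ) * ∑ F, vol F ^ (3 / 4 : ℝ) := by
    rw [Finset.mul_sum]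
    apply Finset.sum_le_sum
    intro F _
    have h1 : vol F = vol F ^ (1 / 4 : ℝ) * vol F ^ (3 / 4 : ℝ) := by
      rw [← Real.rpow_add_of_nonneg (hvol0 F) (by norm_num) (by norm_num)]
      norm_num
    nth_rewrite 1 [h1]
    exact mul_le_mul_of_nonneg_right (Real.rpow_le_rpow (hvol0 F) (hvolM F) (by norm_num))
      (Real.rpow_nonneg (hvol0 F) _)
  have hsq : (M ^ (1 / 4 : ℝ)) ^ 2 ≤ 2 * D := by
    rw [← Real.rpow_natCast (M ^ (1 / 4 : ℝ)) 2, ← Real.rpow_mul hM0]
    have h1 : (1 / 4 : ℝ) * ((2 : ℕ) : ℝ) = 1 / 2 := by norm_num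
    rw [h1, ← Real.sqrt_eq_rpow]
    apply Real.sqrt_le_iff.mpr
    refine ⟨by positivity, ?_⟩
    rw [hM, mul_pow]
    have := Real.pi_le_four
    nlinarith [sq_nonneg D]
  calc (∑ F, vol F) ^ 2 ≤ (M ^ (1 / 4 : ℝ) * ∑ F, vol F ^ (3 / 4 : ℝ)) ^ 2 :=
        pow_le_pow_left₀ (Finset.sum_nonneg (fun F _ => hvol0 F)) hsum 2
    _ = (M ^ (1 / 4 : ℝ)) ^ 2 * (∑ F, vol F ^ (3 / 4 : ℝ)) ^ 2 := mul_pow _ _ _
    _ ≤ (2 * D) * (36 * Z) ^ 3 :=
        mul_le_mul hsq hmain' (by positivity) (by positivity)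
    _ = 2 * 36 ^ 3 * D * Z ^ 3 := by ring

/-- the only face of full dimension is the polytope itself -/
lemma top_face {d : ℕ} (P F : Set (EuclideanSpace ℝ (Fin d))) (hF : IsFace d P F) : F = P := by
  obtain ⟨⟨p, hp⟩, hexp, hdim⟩ := hF
  obtain ⟨l, hl⟩ := hexp ⟨p, hp⟩
  have htop : vectorSpan ℝ F = ⊤ := by
    apply Submodule.eq_top_of_finrank_eq
    rw [hdim, finrank_euclideanSpace, Fintype.card_fin]
  have hlF : ∀ z ∈ F, ∀ z' ∈ F, (l : EuclideanSpace ℝ (Fin d) →ₗ[ℝ] ℝ) z =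
      (l : EuclideanSpace ℝ (Fin d) →ₗ[ℝ] ℝ) z' := by
    intro z hz z' hz'
    rw [hl] at hz hz'
    exact le_antisymm (hz'.2 z hz.1) (hz.2 z' hz'.1)
  have h0 := FaceIneq.vanish_vectorSpan F (l : EuclideanSpace ℝ (Fin d) →ₗ[ℝ] ℝ) hlF
  have hz : ∀ w, l w = 0 := by
    intro w
    exact h0 w (by rw [htop]; trivial)
  rw [hl]
  ext z
  constructor
  · exact fun h => h.1
  · intro h
    refine ⟨h, fun y _ => ?_⟩
    rw [hz, hz]

lemma isFace_top {d : ℕ} (P : Set (EuclideanSpace ℝ (Fin d))) (hP : IsPolytope d P) :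
    IsFace d P P := by
  have hint := hP.2
  refine ⟨hint.mono interior_subset, IsExposed.refl P, ?_⟩
  have h1 : vectorSpan ℝ P = ⊤ := by
    rw [← direction_affineSpan]
    have h2 : affineSpan ℝ P = ⊤ := by
      have h3 : affineSpan ℝ (interior P) = ⊤ := isOpen_interior.affineSpan_eq_top hint
      exact top_le_iff.mp (h3 ▸ affineSpan_mono ℝ interior_subset)
    rw [h2, AffineSubspace.direction_top]
  rw [h1, finrank_top, finrank_euclideanSpace, Fintype.card_fin]

/-- the content of top dimension is the volume -/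
lemma faceContent_top {d : ℕ} (P : Set (EuclideanSpace ℝ (Fin d))) (hP : IsPolytope d P) :
    faceContent d P = (volume : Measure (EuclideanSpace ℝ (Fin d))) P := by
  have h1 : (μHE[d] : Measure (EuclideanSpace ℝ (Fin d))) = volume :=
    EuclideanSpace.euclideanHausdorffMeasure_eq_volume d
  unfold faceContent
  rw [tsum_eq_single (⟨P, isFace_top P hP⟩ : {F : Set (EuclideanSpace ℝ (Fin d)) // IsFace d P F})]
  · rw [h1]
  · intro F hF
    exact absurd (Subtype.ext (top_face P F.1 F.2)) hF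

/-- The volume of a polytope is at most its longest chord in a direction times its surface area. -/
theorem vol_le_surface {k : ℕ} (P : Set (EuclideanSpace ℝ (Fin (k + 1))))
    (hP : IsPolytope (k + 1) P) (v : EuclideanSpace ℝ (Fin (k + 1))) (hv : v ≠ 0) (L : ℝ)
    (hL : ∀ x ∈ P, ∀ t : ℝ, 0 ≤ t → x + t • v ∈ P → t * ‖v‖ ≤ L) :
    (volume : Measure (EuclideanSpace ℝ (Fin (k + 1)))) P ≤ ENNReal.ofReal L * faceContent k P := by
  classical
  have hfin := finite_faces P hP k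
  have hft := Fintype.ofFinite {F : Set (EuclideanSpace ℝ (Fin (k + 1))) // IsFace k P F}
  obtain ⟨⟨S, hS⟩, hint⟩ := hP
  have hPc : IsCompact P := by rw [hS]; exact S.finite_toSet.isCompact_convexHull ℝ
  have hPconv : Convex ℝ P := by rw [hS]; exact convex_convexHull ℝ _
  let N := {G : Set (EuclideanSpace ℝ (Fin (k + 1))) // IsExposed ℝ P G ∧
    finrank ℝ (vectorSpan ℝ G) < k}
  have hNfin : Finite N := by
    have h1 := Faces.faces_finite S
    rw [← hS] at h1
    have : {G : Set (EuclideanSpace ℝ (Fin (k + 1))) | IsExposed ℝ P G ∧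
      finrank ℝ (vectorSpan ℝ G) < k}.Finite := h1.subset (fun G hG => hG.1)
    exact this
  have hNft : Fintype N := Fintype.ofFinite N
  have hE : finrank ℝ (EuclideanSpace ℝ (Fin (k + 1))) = k + 1 := by
    rw [finrank_euclideanSpace, Fintype.card_fin]
  let H : {F : Set (EuclideanSpace ℝ (Fin (k + 1))) // IsFace k P F} ⊕ N →
      Set (EuclideanSpace ℝ (Fin (k + 1))) := fun i => match i with
    | Sum.inl F => F.1
    | Sum.inr G => G.1
  have hH : ∀ x ∈ interior P, ∃ t : ℝ, ∃ i, x + t • v ∈ H i := by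
    intro x hx
    obtain ⟨t, htP, f, hfmax, hfv⟩ := FaceIneq.exit_point P hPc hPconv x hx v hv
    refine ⟨t, ?_⟩
    set G : Set (EuclideanSpace ℝ (Fin (k + 1))) := {z | z ∈ P ∧ ∀ z' ∈ P, f z' ≤ f z} with hG
    have hGexp : IsExposed ℝ P G := fun _ => ⟨f, rfl⟩
    have hpG : x + t • v ∈ G := ⟨htP, hfmax⟩
    have hfG : ∀ z ∈ G, ∀ z' ∈ G, (f : EuclideanSpace ℝ (Fin (k + 1)) →ₗ[ℝ] ℝ) z =
        (f : EuclideanSpace ℝ (Fin (k + 1)) →ₗ[ℝ] ℝ) z' :=
      fun z hz z' hz' => le_antisymm (hz'.2 z hz.1) (hz.2 z' hz'.1)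
    have hGdim : finrank ℝ (vectorSpan ℝ G) ≤ k := by
      by_contra hcon
      push Not at hcon
      have h2 : vectorSpan ℝ G = ⊤ := by
        apply Submodule.eq_top_of_finrank_eq
        have h3 := Submodule.finrank_le (vectorSpan ℝ G)
        omega
      have h4 := FaceIneq.vanish_vectorSpan G (f : EuclideanSpace ℝ (Fin (k + 1)) →ₗ[ℝ] ℝ) hfG v
        (by rw [h2]; trivial)
      have h5 : f v = 0 := h4
      linarith
    rcases lt_or_eq_of_le hGdim with hlt | heq
    · exact ⟨Sum.inr ⟨G, hGexp, hlt⟩, hpG⟩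
    · exact ⟨Sum.inl ⟨G, ⟨_, hpG⟩, hGexp, heq⟩, hpG⟩
  have hsh := Shadow.shadow k hE P hPconv v hv L hL H hH
  refine hsh.trans ?_
  gcongr
  rw [Fintype.sum_sum_type]
  have hN0 : ∑ G : N, (μHE[k] : Measure (EuclideanSpace ℝ (Fin (k + 1)))) (H (Sum.inr G)) = 0 := by
    apply Finset.sum_eq_zero
    intro G _
    exact Faces.muHE_eq_zero G.1 (hPc.isBounded.subset G.2.1.subset) _ k rfl G.2.2
  rw [hN0, add_zero]
  unfold faceContent
  rw [tsum_fintype]

/-- The diameter of a polytope is controlled by its volume and its surface area. -/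
theorem diam_ineq {n : ℕ} (P : Set (EuclideanSpace ℝ (Fin (n + 2)))) (hP : IsPolytope (n + 2) P)
    (x y : EuclideanSpace ℝ (Fin (n + 2))) (hx : x ∈ P) (hy : y ∈ P) :
    ‖x - y‖ * (faceContent (n + 2) P).toReal ^ n ≤
      ((n + 2 : ℕ) : ℝ) ^ (n + 2) * (faceContent (n + 1) P).toReal ^ (n + 1) := by
  have hVtop := (faceContent_lt_top P hP (n + 2)).ne
  have hStop := (faceContent_lt_top P hP (n + 1)).ne
  have hPP := hP
  rw [faceContent_top P hP] at hVtop ⊢
  obtain ⟨⟨S, hS⟩, hint⟩ := hP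
  have hPc : IsCompact P := by rw [hS]; exact S.finite_toSet.isCompact_convexHull ℝ
  have hPconv : Convex ℝ P := by rw [hS]; exact convex_convexHull ℝ _
  have hE : finrank ℝ (EuclideanSpace ℝ (Fin (n + 2))) = n + 2 := by
    rw [finrank_euclideanSpace, Fintype.card_fin]
  obtain ⟨v, hv⟩ := Geom.exists_chords P hPc hint (n + 2) hE.ge
  set V := ((volume : Measure (EuclideanSpace ℝ (Fin (n + 2)))) P).toReal with hV
  set A := (faceContent (n + 1) P).toReal with hA
  have hV0 : 0 ≤ V := ENNReal.toReal_nonneg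
  have hA0 : 0 ≤ A := ENNReal.toReal_nonneg
  -- product of the chords
  have hbox : ∏ i ∈ Finset.range (n + 2), ‖v i‖ ≤ ((n + 2 : ℕ) : ℝ) ^ (n + 2) * V := by
    have h1 := Geom.vol_lower P hPconv (n + 2) (by omega) hE (fun i : Fin (n + 2) => v i)
      (fun i => (hv i i.2).1) (fun i => (hv i i.2).2.1) (by
        intro i j hij
        rcases lt_or_gt_of_ne (fun h => hij (Fin.ext h) : (i : ℕ) ≠ j) with h | h
        · exact (hv j j.2).2.2.1 i h
        · rw [real_inner_comm]; exact (hv i i.2).2.2.1 j h)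
    have h2 := (ENNReal.ofReal_le_iff_le_toReal hVtop).mp h1
    rw [div_le_iff₀ (by positivity)] at h2
    rw [Finset.prod_range]
    linarith
  -- the last chord
  set c := ‖v (n + 1)‖ with hc
  have hc0 : 0 < c := norm_pos_iff.mpr (hv (n + 1) (by omega)).2.1
  have hlast : ∀ i < n + 2, c ≤ ‖v i‖ := by
    intro i hi
    obtain ⟨a, ha, b, hb, hab⟩ := (hv (n + 1) (by omega)).1
    have := (hv i hi).2.2.2 a ha b hb (by
      intro j hj
      rw [hab]
      exact (hv (n + 1) (by omega)).2.2.1 j (by omega))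
    rwa [hab] at this
  have hsurf : V ≤ c * A := by
    have h1 := vol_le_surface (k := n + 1) P hPP (v (n + 1)) (hv (n + 1) (by omega)).2.1 c
      (by
        intro z hz t ht hzt
        have h4 := (hv (n + 1) (by omega)).2.2.2 (z + t • v (n + 1)) hzt z hz (by
          intro b hb
          rw [add_sub_cancel_left, inner_smul_right, (hv (n + 1) (by omega)).2.2.1 b hb, mul_zero])
        rw [add_sub_cancel_left, norm_smul, Real.norm_of_nonneg ht] at h4
        exact h4)
    have h2 := ENNReal.toReal_mono (ENNReal.mul_ne_top ENNReal.ofReal_ne_top hStop) h1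
    rw [ENNReal.toReal_mul, ENNReal.toReal_ofReal hc0.le] at h2
    exact h2
  -- the diameter
  have hxy : ‖x - y‖ ≤ ‖v 0‖ := (hv 0 (by omega)).2.2.2 x hx y hy (fun b hb => absurd hb (Nat.not_lt_zero b))
  have hprod : ‖v 0‖ * c ^ (n + 1) ≤ ((n + 2 : ℕ) : ℝ) ^ (n + 2) * V := by
    refine le_trans ?_ hbox
    rw [Finset.prod_range_succ']
    rw [mul_comm]
    apply mul_le_mul_of_nonneg_right _ (norm_nonneg _)
    have h1 : c ^ (n + 1) = ∏ _i ∈ Finset.range (n + 1), c := by simp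
    rw [h1]
    apply Finset.prod_le_prod
    · intro i _; exact hc0.le
    · intro i hi
      exact hlast (i + 1) (by have := Finset.mem_range.mp hi; omega)
  rcases hV0.eq_or_lt with h0 | hVpos
  · rcases Nat.eq_zero_or_pos n with hn | hn
    · subst hn
      have hcv : ‖v 0‖ * c ^ (0 + 1) ≤ 0 := by
        have := hprod
        rw [← h0, mul_zero] at this
        exact this
      have h5 : 0 < ‖v 0‖ * c ^ (0 + 1) :=
        mul_pos (norm_pos_iff.mpr (hv 0 (by omega)).2.1) (pow_pos hc0 _)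
      linarith
    · rw [← h0, zero_pow (by omega), mul_zero]
      positivity
  · -- main case
    have h1 : ‖x - y‖ * c ^ (n + 1) ≤ ((n + 2 : ℕ) : ℝ) ^ (n + 2) * V :=
      (mul_le_mul_of_nonneg_right hxy (pow_nonneg hc0.le _)).trans hprod
    have h2 : V ^ (n + 1) ≤ (c * A) ^ (n + 1) := pow_le_pow_left₀ hV0 hsurf _
    have h3 : (‖x - y‖ * V ^ n) * V ≤ (((n + 2 : ℕ) : ℝ) ^ (n + 2) * A ^ (n + 1)) * V := by
      calc (‖x - y‖ * V ^ n) * V = ‖x - y‖ * V ^ (n + 1) := by rw [pow_succ]; ring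
        _ ≤ ‖x - y‖ * (c * A) ^ (n + 1) := mul_le_mul_of_nonneg_left h2 (norm_nonneg _)
        _ = (‖x - y‖ * c ^ (n + 1)) * A ^ (n + 1) := by rw [mul_pow]; ring
        _ ≤ (((n + 2 : ℕ) : ℝ) ^ (n + 2) * V) * A ^ (n + 1) :=
            mul_le_mul_of_nonneg_right h1 (pow_nonneg hA0 _)
        _ = (((n + 2 : ℕ) : ℝ) ^ (n + 2) * A ^ (n + 1)) * V := by ring
    exact le_of_mul_le_mul_right h3 hVpos

end

end Pool.Agent.Helper37.FC.Poly
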