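import Pool.Agent.Helper37.FC.Defs
import Pool.Agent.Helper37.FC.Poly

/-!
Boxes and their face contents.
-/

set_option autoImplicit false

namespace Pool.Agent.Helper37.FC.Box

open scoped BigOperators RealInnerProductSpace MeasureTheory
open MeasureTheory Module Measure

noncomputable section

/-- the box with one corner at the origin and side lengths `a i` -/
def box {d : ℕ} (a : Fin d → ℝ) : Set (EuclideanSpace ℝ (Fin d)) :=
  {y | ∀ i, 0 ≤ y i ∧ y i ≤ a i}

/-- the corners of the box -/
def corners {d : ℕ} (a : Fin d → ℝ) : Finset (EuclideanSpace ℝ (Fin d)) :=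
  (Fintype.piFinset (fun i => ({0, a i} : Finset ℝ))).map
    (WithLp.equiv 2 (Fin d → ℝ)).symm.toEmbedding

lemma card_corners {d : ℕ} (a : Fin d → ℝ) : (corners a).card ≤ 2 ^ d := by
  unfold corners
  rw [Finset.card_map, Fintype.card_piFinset]
  calc ∏ i : Fin d, ({0, a i} : Finset ℝ).card ≤ ∏ _i : Fin d, 2 := by
        apply Finset.prod_le_prod' 
        intro i _
        exact Finset.card_le_two
    _ = 2 ^ d := by simp

lemma box_eq_hull {d : ℕ} (a : Fin d → ℝ) (ha : ∀ i, 0 ≤ a i) :
    box a = convexHull ℝ (corners a : Set (EuclideanSpace ℝ (Fin d))) := by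
  have h1 : (corners a : Set (EuclideanSpace ℝ (Fin d))) =
      (WithLp.linearEquiv 2 ℝ (Fin d → ℝ)).symm '' (Set.pi Set.univ (fun i => ({0, a i} : Set ℝ))) := by
    unfold corners
    rw [Finset.coe_map, Fintype.coe_piFinset]
    have : (fun i => (({0, a i} : Finset ℝ) : Set ℝ)) = (fun i => ({0, a i} : Set ℝ)) := by
      funext i
      simp
    rw [this]
    rfl
  have h2 : convexHull ℝ ((WithLp.linearEquiv 2 ℝ (Fin d → ℝ)).symm '' (Set.pi Set.univ (fun i => ({0, a i} : Set ℝ)))) =
      (WithLp.linearEquiv 2 ℝ (Fin d → ℝ)).symm '' (convexHull ℝ (Set.pi Set.univ (fun i => ({0, a i} : Set ℝ)))) := by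
    have := LinearMap.image_convexHull ((WithLp.linearEquiv 2 ℝ (Fin d → ℝ)).symm : (Fin d → ℝ) →ₗ[ℝ] EuclideanSpace ℝ (Fin d)) (Set.pi Set.univ (fun i => ({0, a i} : Set ℝ)))
    exact this.symm
  rw [h1, h2, convexHull_pi]
  ext y
  constructor
  · intro hy
    refine ⟨WithLp.ofLp y, ?_, ?_⟩
    · intro i _
      show y i ∈ convexHull ℝ {0, a i}
      rw [convexHull_pair, segment_eq_Icc (ha i)]
      exact hy i
    · rfl
  · rintro ⟨z, hz, rfl⟩
    intro i
    have h3 : z i ∈ convexHull ℝ {0, a i} := hz i (Set.mem_univ i)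
    rw [convexHull_pair, segment_eq_Icc (ha i)] at h3
    exact h3

lemma interior_box {d : ℕ} (a : Fin d → ℝ) (ha : ∀ i, 0 < a i) : (interior (box a)).Nonempty := by
  have hopen : IsOpen {y : EuclideanSpace ℝ (Fin d) | ∀ i, 0 < y i ∧ y i < a i} := by
    have : {y : EuclideanSpace ℝ (Fin d) | ∀ i, 0 < y i ∧ y i < a i} =
        ⋂ i, {y : EuclideanSpace ℝ (Fin d) | 0 < y i ∧ y i < a i} := by
      ext y; simp
    rw [this]
    apply isOpen_iInter_of_finite
    intro i
    apply IsOpen.and
    · exact isOpen_lt continuous_const (by fun_prop)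
    · exact isOpen_lt (by fun_prop) continuous_const
  refine ⟨WithLp.toLp 2 (fun i => a i / 2), ?_⟩
  have hsub : {y : EuclideanSpace ℝ (Fin d) | ∀ i, 0 < y i ∧ y i < a i} ⊆ box a :=
    fun y hy i => ⟨(hy i).1.le, (hy i).2.le⟩
  apply interior_maximal hsub hopen
  intro i
  have := ha i
  constructor
  · show 0 < a i / 2
    positivity
  · show a i / 2 < a i
    linarith

lemma isPolytope_box {d : ℕ} (a : Fin d → ℝ) (ha : ∀ i, 0 < a i) : IsPolytope d (box a) :=
  ⟨⟨corners a, box_eq_hull a (fun i => (ha i).le)⟩, interior_box a ha⟩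

/-- the content of a polytope with few vertices and small faces is small -/
lemma faceContent_le_of {d : ℕ} (S : Finset (EuclideanSpace ℝ (Fin d)))
    (P : Set (EuclideanSpace ℝ (Fin d))) (hPS : P = convexHull ℝ (S : Set (EuclideanSpace ℝ (Fin d))))
    (hP : IsPolytope d P) (k : ℕ) (M : ENNReal)
    (hM : ∀ F, IsFace k P F → (μHE[k] : Measure (EuclideanSpace ℝ (Fin d))) F ≤ M) :
    faceContent k P ≤ ((2 ^ S.card : ℕ) : ENNReal) * M := by
  classical
  have hfin := Poly.finite_faces P hP k
  have hft := Fintype.ofFinite {F : Set (EuclideanSpace ℝ (Fin d)) // IsFace k P F}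
  unfold faceContent
  rw [tsum_fintype]
  calc ∑ F : {F : Set (EuclideanSpace ℝ (Fin d)) // IsFace k P F}, (μHE[k] : Measure (EuclideanSpace ℝ (Fin d))) F.1
      ≤ ∑ _F : {F : Set (EuclideanSpace ℝ (Fin d)) // IsFace k P F}, M :=
        Finset.sum_le_sum (fun F _ => hM F.1 F.2)
    _ = (Fintype.card {F : Set (EuclideanSpace ℝ (Fin d)) // IsFace k P F} : ENNReal) * M := by
        rw [Finset.sum_const, nsmul_eq_mul]; rfl
    _ ≤ ((2 ^ S.card : ℕ) : ENNReal) * M := by
        gcongr
        have hinj : Function.Injective (fun F : {F : Set (EuclideanSpace ℝ (Fin d)) // IsFace k P F} =>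
            S.filter (fun x => x ∈ F.1)) := by
          intro F G hFG
          have hFe := Faces.face_eq_hull S F.1 (hPS ▸ F.2.2.1)
          have hGe := Faces.face_eq_hull S G.1 (hPS ▸ G.2.2.1)
          have key : ∀ A B : {F : Set (EuclideanSpace ℝ (Fin d)) // IsFace k P F},
              S.filter (fun x => x ∈ A.1) = S.filter (fun x => x ∈ B.1) → A.1 ⊆ B.1 := by
            intro A B hAB
            have hAe := Faces.face_eq_hull S A.1 (hPS ▸ A.2.2.1)
            have hBconv : Convex ℝ B.1 := B.2.2.1.convex (hPS ▸ convex_convexHull ℝ _)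
            rw [hAe.1]
            apply convexHull_min _ hBconv
            intro x hx
            have hxS : x ∈ S := hAe.2 hx
            have hxA : x ∈ A.1 := extremePoints_subset hx
            have : x ∈ S.filter (fun x => x ∈ A.1) := Finset.mem_filter.mpr ⟨hxS, hxA⟩
            rw [hAB] at this
            exact (Finset.mem_filter.mp this).2
          exact Subtype.ext (Set.Subset.antisymm (key F G hFG) (key G F hFG.symm))
        have hcard := Fintype.card_le_of_injective (fun F : {F : Set (EuclideanSpace ℝ (Fin d)) // IsFace k P F} =>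
            (⟨S.filter (fun x => x ∈ F.1), Finset.mem_powerset.mpr (Finset.filter_subset _ _)⟩ : S.powerset))
          (fun F G h => hinj (congrArg Subtype.val h))
        rw [Fintype.card_coe, Finset.card_powerset] at hcard
        exact_mod_cast hcard

lemma faceContent_box_le {d : ℕ} (a : Fin d → ℝ) (ha : ∀ i, 0 < a i) (k : ℕ) (M : ENNReal)
    (hM : ∀ F, IsFace k (box a) F → (μHE[k] : Measure (EuclideanSpace ℝ (Fin d))) F ≤ M) :
    faceContent k (box a) ≤ ((2 ^ (2 ^ d) : ℕ) : ENNReal) * M := by
  refine (faceContent_le_of (corners a) (box a) (box_eq_hull a (fun i => (ha i).le))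
    (isPolytope_box a ha) k M hM).trans ?_
  gcongr
  · norm_num
  · exact card_corners a

/-- the total edge length of a box with sides at most one -/
lemma edge_box {d : ℕ} (a : Fin d → ℝ) (ha : ∀ i, 0 < a i) (ha1 : ∀ i, a i ≤ 1) :
    faceContent 1 (box a) ≤ ((2 ^ (2 ^ d) : ℕ) : ENNReal) * (ENNReal.ofReal (2 * d)) := by
  apply faceContent_box_le a ha
  intro F hF
  have hdiam : ∀ x ∈ F, ∀ y ∈ F, ‖x - y‖ ≤ (d : ℝ) := by
    intro x hx y hy
    have hx' := hF.2.1.subset hx
    have hy' := hF.2.1.subset hy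
    have h1 : ‖x - y‖ ^ 2 ≤ (d : ℝ) := by
      rw [EuclideanSpace.norm_sq_eq]
      calc ∑ i, ‖(x - y) i‖ ^ 2 ≤ ∑ _i : Fin d, (1 : ℝ) := by
            apply Finset.sum_le_sum
            intro i _
            have h2 := hx' i
            have h3 := hy' i
            have h4 := ha1 i
            have h5 : ‖(x - y) i‖ ≤ 1 := by
              rw [Real.norm_eq_abs, abs_le]
              have : (x - y) i = x i - y i := rfl
              rw [this]
              constructor <;> linarith
            have h6 := norm_nonneg ((x - y) i)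
            nlinarith
        _ = d := by simp
    rcases Nat.eq_zero_or_pos d with h0 | hpos
    · subst h0
      simp at h1 ⊢
      have : x = y := by
        ext i; exact i.elim0
      exact sub_eq_zero.mpr this
    · have h2 : (1 : ℝ) ≤ d := by exact_mod_cast hpos
      have h3 : ‖x - y‖ ^ 2 ≤ (d : ℝ) ^ 2 := by nlinarith
      exact (pow_le_pow_iff_left₀ (norm_nonneg _) (by positivity) two_ne_zero).mp h3
  have h1 := Poly.muHE_le_ball F 1 one_pos hF.2.2 d hdiam
  refine h1.trans (le_of_eq ?_)
  have hG : Real.Gamma (((1 : ℕ) : ℝ) / 2 + 1) = √Real.pi / 2 := by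
    rw [Nat.cast_one, Real.Gamma_add_one (by norm_num), Real.Gamma_one_half_eq]
    ring
  rw [hG]
  have h2 : √Real.pi ^ 1 / (√Real.pi / 2) = 2 := by
    have : √Real.pi ≠ 0 := by positivity
    field_simp
  rw [h2, pow_one, ← ENNReal.ofReal_mul (by positivity)]
  congr 1
  ring

/-- the isometric embedding inserting a constant coordinate -/
def ins {n : ℕ} (i : Fin (n + 1)) (c : ℝ) (z : EuclideanSpace ℝ (Fin n)) :
    EuclideanSpace ℝ (Fin (n + 1)) :=
  WithLp.toLp 2 (Fin.insertNth (α := fun _ => ℝ) i c (WithLp.ofLp z))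

lemma ins_same {n : ℕ} (i : Fin (n + 1)) (c : ℝ) (z : EuclideanSpace ℝ (Fin n)) :
    ins i c z i = c := by
  show Fin.insertNth (α := fun _ => ℝ) i c (WithLp.ofLp z) i = c
  simp

lemma ins_succAbove {n : ℕ} (i : Fin (n + 1)) (c : ℝ) (z : EuclideanSpace ℝ (Fin n)) (j : Fin n) :
    ins i c z (i.succAbove j) = z j := by
  show Fin.insertNth (α := fun _ => ℝ) i c (WithLp.ofLp z) (i.succAbove j) = z j
  simp

lemma ins_isometry {n : ℕ} (i : Fin (n + 1)) (c : ℝ) : Isometry (ins (n := n) i c) := by
  apply Isometry.of_dist_eq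
  intro a b
  rw [EuclideanSpace.dist_eq, EuclideanSpace.dist_eq, Fin.sum_univ_succAbove _ i]
  simp only [ins_same, ins_succAbove, dist_self]
  simp

lemma volume_box {d : ℕ} (a : Fin d → ℝ) :
    (volume : Measure (EuclideanSpace ℝ (Fin d))) (box a) = ∏ i, ENNReal.ofReal (a i) := by
  have h1 : box a = (WithLp.ofLp : EuclideanSpace ℝ (Fin d) → (Fin d → ℝ)) ⁻¹' (Set.Icc 0 a) := by
    ext y
    constructor
    · intro hy
      exact ⟨fun i => (hy i).1, fun i => (hy i).2⟩
    · intro hy i
      exact ⟨hy.1 i, hy.2 i⟩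
  rw [h1, (PiLp.volume_preserving_ofLp (Fin d)).measure_preimage
    measurableSet_Icc.nullMeasurableSet, Real.volume_Icc_pi]
  simp

/-- a facet of a box lies in a coordinate hyperplane -/
lemma facet_box {n : ℕ} (a : Fin (n + 1) → ℝ) (ha : ∀ i, 0 < a i)
    (F : Set (EuclideanSpace ℝ (Fin (n + 1)))) (hF : IsFace n (box a) F) :
    ∃ i : Fin (n + 1), ∃ c : ℝ, ∀ y ∈ F, y i = c := by
  obtain ⟨⟨p, hp⟩, hexp, hdim⟩ := hF
  obtain ⟨l, hl⟩ := hexp ⟨p, hp⟩
  have hl0 : ∃ i : Fin (n + 1), l (EuclideanSpace.single i 1) ≠ 0 := by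
    by_contra hcon
    push Not at hcon
    have hz : ∀ w, l w = 0 := by
      intro w
      have h1 : w = ∑ i, w i • EuclideanSpace.single i (1 : ℝ) := by
        have := (EuclideanSpace.basisFun (Fin (n + 1)) ℝ).sum_repr w
        simpa using this.symm
      rw [h1, _root_.map_sum]
      apply Finset.sum_eq_zero
      intro i _
      rw [map_smul, hcon i, smul_zero]
    have hFP : F = box a := by
      rw [hl]
      ext z
      constructor
      · exact fun h => h.1
      · intro h
        refine ⟨h, fun y _ => ?_⟩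
        rw [hz, hz]
    have htop := (Poly.isFace_top (box a) (isPolytope_box a ha)).2.2
    rw [← hFP, hdim] at htop
    omega
  obtain ⟨i, hi⟩ := hl0
  rcases lt_or_gt_of_ne hi with hneg | hpos
  · refine ⟨i, 0, fun y hy => ?_⟩
    rw [hl] at hy
    have h1 : y + (-(y i)) • EuclideanSpace.single i (1 : ℝ) ∈ box a := by
      intro j
      have h3 : (y + (-(y i)) • EuclideanSpace.single i (1 : ℝ)) j =
          y j + (-(y i)) * (if j = i then 1 else 0) := by
        by_cases hj : j = i <;> simp [hj]
      rw [h3]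
      by_cases hj : j = i
      · subst hj
        simp
        exact (ha j).le
      · simp [hj]
        exact hy.1 j
    have h2 := hy.2 _ h1
    rw [map_add, map_smul, smul_eq_mul] at h2
    have h3 := (hy.1 i).1
    have h4 : 0 ≤ y i * l (EuclideanSpace.single i 1) := by linarith
    nlinarith
  · refine ⟨i, a i, fun y hy => ?_⟩
    rw [hl] at hy
    have h1 : y + (a i - y i) • EuclideanSpace.single i (1 : ℝ) ∈ box a := by
      intro j
      have h3 : (y + (a i - y i) • EuclideanSpace.single i (1 : ℝ)) j =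
          y j + (a i - y i) * (if j = i then 1 else 0) := by
        simp
      rw [h3]
      by_cases hj : j = i
      · subst hj
        simp
        exact (ha j).le
      · simp [hj]
        exact hy.1 j
    have h2 := hy.2 _ h1
    rw [map_add, map_smul, smul_eq_mul] at h2
    have h3 := (hy.1 i).2
    have h4 : (a i - y i) * l (EuclideanSpace.single i 1) ≤ 0 := by linarith
    nlinarith

/-- the area of the facets of a box -/
lemma facet_measure {n : ℕ} (a : Fin (n + 1) → ℝ) (ha : ∀ i, 0 < a i) (M : ENNReal)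
    (hM : ∀ i : Fin (n + 1), ∏ j : Fin n, ENNReal.ofReal (a (i.succAbove j)) ≤ M)
    (F : Set (EuclideanSpace ℝ (Fin (n + 1)))) (hF : IsFace n (box a) F) :
    (μHE[n] : Measure (EuclideanSpace ℝ (Fin (n + 1)))) F ≤ M := by
  obtain ⟨i, c, hc⟩ := facet_box a ha F hF
  have hsub : F ⊆ ins i c '' box (fun j => a (i.succAbove j)) := by
    intro y hy
    refine ⟨WithLp.toLp 2 (fun j => y (i.succAbove j)), ?_, ?_⟩
    · intro j
      exact (hF.2.1.subset hy) (i.succAbove j)
    · ext k
      rcases Fin.eq_self_or_eq_succAbove i k with h | ⟨j, rfl⟩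
      · rw [h, ins_same, hc y hy]
      · rw [ins_succAbove]
  refine (measure_mono hsub).trans ?_
  rw [(ins_isometry i c).euclideanHausdorffMeasure_image,
    EuclideanSpace.euclideanHausdorffMeasure_eq_volume, volume_box]
  exact hM i

lemma surface_box {n : ℕ} (a : Fin (n + 1) → ℝ) (ha : ∀ i, 0 < a i) (M : ENNReal)
    (hM : ∀ i : Fin (n + 1), ∏ j : Fin n, ENNReal.ofReal (a (i.succAbove j)) ≤ M) :
    faceContent n (box a) ≤ ((2 ^ (2 ^ (n + 1)) : ℕ) : ENNReal) * M :=
  faceContent_box_le a ha n M (facet_measure a ha M hM)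

end

end Pool.Agent.Helper37.FC.Box
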