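import Mathlib

/-!
Convex polytopes, their faces, the sums `ζ_k` of the volumes of the `k`-dimensional faces, the
lower semicontinuous extension of `ζ_k` to convex bodies, and the cones of `ζ`-vectors.
-/

set_option autoImplicit false

namespace Pool.Agent.Helper37.FC

open MeasureTheory Filter Topology

/-- `P` is a `d`-polytope: the convex hull of a finite set of points of `ℝ^d`, with nonempty
interior. -/
def IsPolytope (d : ℕ) (P : Set (EuclideanSpace ℝ (Fin d))) : Prop :=
  (∃ S : Finset (EuclideanSpace ℝ (Fin d)), P = convexHull ℝ (S : Set (EuclideanSpace ℝ (Fin d)))) ∧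
    (interior P).Nonempty

/-- `F` is a `k`-dimensional face of `P`: a nonempty exposed subset of `P` (the set where a linear
functional attains its maximum over `P`; the zero functional gives `P` itself) whose affine span
has dimension `k`. -/
def IsFace {d : ℕ} (k : ℕ) (P F : Set (EuclideanSpace ℝ (Fin d))) : Prop :=
  F.Nonempty ∧ IsExposed ℝ P F ∧ Module.finrank ℝ (vectorSpan ℝ F) = k

/-- `ζ_k(P)` for a polytope `P`: the sum, over all `k`-dimensional faces `F` of `P`, of the
`k`-dimensional volume of `F` (Hausdorff measure normalised to be the Euclidean `k`-volume). -/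
noncomputable def faceContent {d : ℕ} (k : ℕ) (P : Set (EuclideanSpace ℝ (Fin d))) : ENNReal :=
  ∑' F : {F : Set (EuclideanSpace ℝ (Fin d)) // IsFace k P F}, μHE[k] F.1

/-- `ζ_k(K)` for a convex body `K`: the infimum, over all sequences of `d`-polytopes `P n`
converging to `K` in the Hausdorff metric, of `liminf ζ_k(P n)`. -/
noncomputable def extContent {d : ℕ} (k : ℕ) (K : Set (EuclideanSpace ℝ (Fin d))) : ENNReal :=
  ⨅ (P : ℕ → Set (EuclideanSpace ℝ (Fin d)))
    (_ : (∀ n, IsPolytope d (P n)) ∧
      Tendsto (fun n => Metric.hausdorffEDist (P n) K) atTop (𝓝 0)),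
    liminf (fun n => faceContent k (P n)) atTop

/-- `ζ(𝒫^d)`: the set of the vectors `(ζ_k(P)^(1/k))`, `k = 1, …, d`, over all `d`-polytopes `P`
(the coordinate with index `i : Fin d` is the one with `k = i + 1`). -/
def zetaPolytopes (d : ℕ) : Set (Fin d → ℝ) :=
  {x | ∃ P : Set (EuclideanSpace ℝ (Fin d)), IsPolytope d P ∧
    x = fun i : Fin d => (faceContent (i + 1) P).toReal ^ ((1 : ℝ) / ((i : ℝ) + 1))}

/-- `ζ(𝒞_1^d)`: the set of the vectors `(ζ_k(K)^(1/k))`, `k = 1, …, d`, over all compact convex
sets `K` in `ℝ^d` with nonempty interior and `ζ_1(K) < ∞`. -/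
def zetaBodies (d : ℕ) : Set (Fin d → ℝ) :=
  {x | ∃ K : Set (EuclideanSpace ℝ (Fin d)), IsCompact K ∧ Convex ℝ K ∧ (interior K).Nonempty ∧
    extContent 1 K < ⊤ ∧
    x = fun i : Fin d => (extContent (i + 1) K).toReal ^ ((1 : ℝ) / ((i : ℝ) + 1))}

end Pool.Agent.Helper37.FC
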