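import Pool.Agent.Helper37.FC.Poly

/-!
The shadow of a polytope is covered by the shadows of its faces of the dimension of the shadow.
-/

set_option autoImplicit false

namespace Pool.Agent.Helper37.FC.Proj

open scoped BigOperators RealInnerProductSpace MeasureTheory
open MeasureTheory Module Measure

noncomputable section

variable {E : Type*} [NormedAddCommGroup E] [InnerProductSpace ℝ E] [FiniteDimensional ℝ E]

/-- a boundary point of a face lies in a face of smaller dimension -/
lemma descend (S : Finset E) (F : Set E) (hFexp : IsExposed ℝ (convexHull ℝ (S : Set E)) F)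
    (z : E) (hz : z ∈ F) (y : E) (hy : y ∈ vectorSpan ℝ F) (hout : ∀ t : ℝ, 0 < t → z + t • y ∉ F) :
    ∃ G : Set E, IsExposed ℝ (convexHull ℝ (S : Set E)) G ∧ G ⊆ F ∧ z ∈ G ∧
      finrank ℝ (vectorSpan ℝ G) < finrank ℝ (vectorSpan ℝ F) := by
  have hPc : IsCompact (convexHull ℝ (S : Set E)) := S.finite_toSet.isCompact_convexHull ℝ
  have hFc : IsCompact F := hFexp.isCompact hPc
  have hFconv : Convex ℝ F := hFexp.convex (convex_convexHull ℝ _)
  set W := vectorSpan ℝ F with hW
  let f : W → E := fun w => (w : E) + z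
  have hfdef : ∀ w : W, f w = (w : E) + z := fun w => rfl
  have hf : Isometry f := by
    apply Isometry.of_dist_eq
    intro a b
    simp [f, Subtype.dist_eq]
  have hfcl : Topology.IsClosedEmbedding f := hf.isClosedEmbedding
  set K : Set W := f ⁻¹' F with hK
  have hFK : ∀ u ∈ F, ∃ w ∈ K, f w = u := by
    intro u hu
    refine ⟨⟨u - z, vsub_mem_vectorSpan ℝ hu hz⟩, ?_, ?_⟩
    · rw [hK, Set.mem_preimage]
      simpa [f] using hu
    · simp [f]
  have hKconv : Convex ℝ K := by
    intro a ha b hb p q hp hq hpq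
    rw [hK, Set.mem_preimage] at ha hb ⊢
    have : f (p • a + q • b) = p • f a + q • f b := by
      simp only [f, Submodule.coe_add, Submodule.coe_smul, smul_add]
      have h1 : z = p • z + q • z := by rw [← add_smul, hpq, one_smul]
      nth_rewrite 1 [h1]
      abel
    rw [this]
    exact hFconv ha hb hp hq hpq
  have hKne : K.Nonempty := ⟨0, by rw [hK, Set.mem_preimage]; simpa [f] using hz⟩
  have hKint : (interior K).Nonempty := by
    rw [hKconv.interior_nonempty_iff_affineSpan_eq_top,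
      AffineSubspace.affineSpan_eq_top_iff_vectorSpan_eq_top_of_nonempty ℝ W W hKne]
    rw [eq_top_iff]
    have h1 : W ≤ (vectorSpan ℝ K).map W.subtype := by
      conv_lhs => rw [hW, vectorSpan_def]
      rw [Submodule.span_le]
      rintro _ ⟨u, hu, u', hu', rfl⟩
      obtain ⟨w, hw, rfl⟩ := hFK u hu
      obtain ⟨w', hw', rfl⟩ := hFK u' hu'
      refine ⟨w - w', vsub_mem_vectorSpan ℝ hw hw', ?_⟩
      simp [f]
    intro w _
    obtain ⟨w', hw', hww'⟩ := h1 w.2
    have : w' = w := Subtype.ext hww'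
    rw [← this]; exact hw'
  have h0 : (0 : W) ∉ interior K := by
    intro hint
    have hc : Continuous (fun s : ℝ => s • (⟨y, hy⟩ : W)) := by fun_prop
    have h1 : (fun s : ℝ => s • (⟨y, hy⟩ : W)) ⁻¹' interior K ∈ nhds 0 := by
      apply (isOpen_interior.preimage hc).mem_nhds
      show (0 : ℝ) • (⟨y, hy⟩ : W) ∈ interior K
      rw [zero_smul]
      exact hint
    obtain ⟨δ, hδ, hball⟩ := Metric.mem_nhds_iff.mp h1
    have h2 : (δ / 2) • (⟨y, hy⟩ : W) ∈ K := by
      apply interior_subset (hball _)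
      rw [Metric.mem_ball, Real.dist_eq, sub_zero, abs_of_pos (by linarith)]
      linarith
    apply hout (δ / 2) (by linarith)
    have h3 : f ((δ / 2) • (⟨y, hy⟩ : W)) = z + (δ / 2) • y := by
      rw [hfdef, add_comm]; rfl
    rw [← h3]
    exact h2
  obtain ⟨φ, hφ⟩ := geometric_hahn_banach_open_point hKconv.interior isOpen_interior h0
  rw [map_zero] at hφ
  have hφK : ∀ w ∈ K, φ w ≤ 0 := by
    intro w hw
    have h1 : w ∈ closure (interior K) := by
      rw [hKconv.closure_interior_eq_closure_of_nonempty_interior hKint]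
      exact subset_closure hw
    have h2 : closure (interior K) ⊆ {w | φ w ≤ 0} :=
      closure_minimal (fun a ha => (hφ a ha).le) (isClosed_le φ.continuous continuous_const)
    exact h2 h1
  let l : StrongDual ℝ E := φ.comp (W.orthogonalProjectionOnto)
  have hlW : ∀ w' : W, l (w' : E) = φ w' := by
    intro w'
    simp [l]
  have hlf : ∀ w' : W, l (f w') = φ w' + l z := by
    intro w'
    rw [hfdef, map_add, hlW]
  set G : Set E := {u | u ∈ F ∧ ∀ u' ∈ F, l u' ≤ l u} with hG
  have hGexpF : IsExposed ℝ F G := fun _ => ⟨l, rfl⟩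
  have hGexp := Faces.face_trans S F G hFexp hGexpF
  have hzG : z ∈ G := by
    refine ⟨hz, ?_⟩
    intro u' hu'
    obtain ⟨w', hw', rfl⟩ := hFK u' hu'
    rw [hlf]
    linarith [hφK w' hw']
  have hGF : G ⊆ F := fun u hu => hu.1
  refine ⟨G, hGexp, hGF, hzG, ?_⟩
  by_contra hcon
  push Not at hcon
  have h2 : vectorSpan ℝ G = vectorSpan ℝ F :=
    Submodule.eq_of_le_of_finrank_le (vectorSpan_mono ℝ hGF) hcon
  have hlG : ∀ u ∈ G, ∀ u' ∈ G, (l : E →ₗ[ℝ] ℝ) u = (l : E →ₗ[ℝ] ℝ) u' :=
    fun u hu u' hu' => le_antisymm (hu'.2 u hu.1) (hu.2 u' hu'.1)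
  obtain ⟨w, hw⟩ := hKint
  have h3 := hφ w hw
  have h4 := FaceIneq.vanish_vectorSpan G (l : E →ₗ[ℝ] ℝ) hlG (w : E) (by rw [h2]; exact w.2)
  have h5 : l (w : E) = 0 := h4
  rw [hlW] at h5
  linarith

omit [FiniteDimensional ℝ E] in
/-- the last point of a compact set on a ray -/
lemma last_point (F : Set E) (hFc : IsCompact F) (z : E) (hz : z ∈ F) (y : E) (hy : y ≠ 0) :
    ∃ t : ℝ, z + t • y ∈ F ∧ ∀ s : ℝ, 0 < s → (z + t • y) + s • y ∉ F := by
  have hcl : IsClosed {t : ℝ | z + t • y ∈ F} := hFc.isClosed.preimage (by fun_prop)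
  have hbd : Bornology.IsBounded {t : ℝ | z + t • y ∈ F} := by
    obtain ⟨R, hR⟩ := hFc.isBounded.exists_norm_le
    have hyn : 0 < ‖y‖ := norm_pos_iff.mpr hy
    refine (Metric.isBounded_closedBall (x := (0 : ℝ)) (r := (R + ‖z‖) / ‖y‖)).subset ?_
    intro t htF
    rw [mem_closedBall_zero_iff, le_div_iff₀ hyn, ← norm_smul]
    have h1 := hR _ htF
    have h3 : t • y = (z + t • y) - z := by abel
    rw [h3]
    exact (norm_sub_le _ _).trans (by linarith)
  have hcomp : IsCompact {t : ℝ | z + t • y ∈ F} := Metric.isCompact_of_isClosed_isBounded hcl hbd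
  obtain ⟨t, htF, htmax⟩ := hcomp.exists_isGreatest ⟨0, by simpa using hz⟩
  refine ⟨t, htF, ?_⟩
  intro s hs hsF
  have h1 : t + s ∈ {t : ℝ | z + t • y ∈ F} := by
    show z + (t + s) • y ∈ F
    rw [add_smul, ← add_assoc]
    exact hsF
  have := htmax h1
  linarith

/-- each point of a polytope has the same shadow as a point of a face of small dimension -/
lemma cover (S : Finset E) {E' : Type*} [AddCommGroup E'] [Module ℝ E'] [FiniteDimensional ℝ E']
    (p : E →ₗ[ℝ] E') (r : ℕ) : ∀ (F : Set E), IsExposed ℝ (convexHull ℝ (S : Set E)) F →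
      finrank ℝ (vectorSpan ℝ F) = r → ∀ z ∈ F, ∃ G : Set E, IsExposed ℝ (convexHull ℝ (S : Set E)) G ∧
        finrank ℝ (vectorSpan ℝ G) ≤ finrank ℝ E' ∧ ∃ z' ∈ G, p z' = p z := by
  induction r using Nat.strong_induction_on with
  | _ r ih =>
    intro F hF hr z hz
    by_cases hle : r ≤ finrank ℝ E'
    · exact ⟨F, hF, by rw [hr]; exact hle, z, hz, rfl⟩
    · push Not at hle
      have hker : LinearMap.ker (p.domRestrict (vectorSpan ℝ F)) ≠ ⊥ :=
        LinearMap.ker_ne_bot_of_finrank_lt (by rw [hr]; exact hle)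
      obtain ⟨y, hy, hy0⟩ := (Submodule.ne_bot_iff _).mp hker
      have hpy : p (y : E) = 0 := by
        have := LinearMap.mem_ker.mp hy
        simpa using this
      have hPc : IsCompact (convexHull ℝ (S : Set E)) := S.finite_toSet.isCompact_convexHull ℝ
      have hFc : IsCompact F := hF.isCompact hPc
      obtain ⟨t, htF, htout⟩ := last_point F hFc z hz (y : E) (fun h => hy0 (Subtype.ext h))
      obtain ⟨G, hG, hGF, hzG, hGr⟩ := descend S F hF (z + t • (y : E)) htF (y : E) y.2 htout
      rw [hr] at hGr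
      obtain ⟨G', hG', hG'r, z', hz', hpz'⟩ := ih _ hGr G hG rfl (z + t • (y : E)) hzG
      refine ⟨G', hG', hG'r, z', hz', ?_⟩
      rw [hpz', map_add, map_smul, hpy, smul_zero, add_zero]

/-- The `m`-content of a polytope is at least the `m`-volume of its shadow on an
`m`-dimensional space. -/
theorem shadow_le {d m : ℕ} (P : Set (EuclideanSpace ℝ (Fin d))) (hP : IsPolytope d P)
    (p : EuclideanSpace ℝ (Fin d) →ₗ[ℝ] EuclideanSpace ℝ (Fin m)) (hp : LipschitzWith 1 p) :
    (volume : Measure (EuclideanSpace ℝ (Fin m))) (p '' P) ≤ faceContent m P := by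
  classical
  have hfin := Poly.finite_faces P hP m
  have hft := Fintype.ofFinite {F : Set (EuclideanSpace ℝ (Fin d)) // IsFace m P F}
  obtain ⟨⟨S, hS⟩, hint⟩ := hP
  have hPc : IsCompact P := by rw [hS]; exact S.finite_toSet.isCompact_convexHull ℝ
  let N := {G : Set (EuclideanSpace ℝ (Fin d)) // IsExposed ℝ P G ∧
    finrank ℝ (vectorSpan ℝ G) < m}
  have hNfin : Finite N := by
    have h1 := Faces.faces_finite S
    rw [← hS] at h1
    have : {G : Set (EuclideanSpace ℝ (Fin d)) | IsExposed ℝ P G ∧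
      finrank ℝ (vectorSpan ℝ G) < m}.Finite := h1.subset (fun G hG => hG.1)
    exact this
  have hNft : Fintype N := Fintype.ofFinite N
  let H : {F : Set (EuclideanSpace ℝ (Fin d)) // IsFace m P F} ⊕ N →
      Set (EuclideanSpace ℝ (Fin d)) := fun i => match i with
    | Sum.inl F => F.1
    | Sum.inr G => G.1
  have hcover : p '' P ⊆ ⋃ i, p '' (H i) := by
    rintro _ ⟨z, hz, rfl⟩
    obtain ⟨G, hG, hGr, z', hz', hpz⟩ := cover S p _ P (by rw [← hS]; exact IsExposed.refl P) rfl z hz
    rw [finrank_euclideanSpace, Fintype.card_fin] at hGr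
    rw [← hS] at hG
    rcases lt_or_eq_of_le hGr with hlt | heq
    · exact Set.mem_iUnion.mpr ⟨Sum.inr ⟨G, hG, hlt⟩, z', hz', hpz⟩
    · exact Set.mem_iUnion.mpr ⟨Sum.inl ⟨G, ⟨z', hz'⟩, hG, heq⟩, z', hz', hpz⟩
  have hvol : (volume : Measure (EuclideanSpace ℝ (Fin m))) = μHE[m] :=
    (EuclideanSpace.euclideanHausdorffMeasure_eq_volume m).symm
  rw [hvol]
  calc (μHE[m] : Measure (EuclideanSpace ℝ (Fin m))) (p '' P)
      ≤ (μHE[m] : Measure (EuclideanSpace ℝ (Fin m))) (⋃ i, p '' (H i)) := measure_mono hcover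
    _ ≤ ∑ i, (μHE[m] : Measure (EuclideanSpace ℝ (Fin m))) (p '' (H i)) :=
        measure_iUnion_fintype_le _ _
    _ ≤ ∑ i, (μHE[m] : Measure (EuclideanSpace ℝ (Fin d))) (H i) :=
        Finset.sum_le_sum (fun i _ => Shadow.muHE_image_le m p hp (H i))
    _ = faceContent m P := by
        rw [Fintype.sum_sum_type]
        have hN0 : ∑ G : N, (μHE[m] : Measure (EuclideanSpace ℝ (Fin d))) (H (Sum.inr G)) = 0 := by
          apply Finset.sum_eq_zero
          intro G _
          exact Faces.muHE_eq_zero G.1 (hPc.isBounded.subset G.2.1.subset) _ m rfl G.2.2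
        rw [hN0, add_zero]
        unfold faceContent
        rw [tsum_fintype]

end

end Pool.Agent.Helper37.FC.Proj
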