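import Pool.Agent.Helper37.FC.Defs
import Pool.Agent.Helper37.FC.Poly
import Pool.Agent.Helper37.FC.Proj
import Pool.Agent.Helper37.FC.Box

/-!
The extension of the face contents to convex bodies.
-/

set_option autoImplicit false

namespace Pool.Agent.Helper37.FC.Ext

open scoped BigOperators RealInnerProductSpace MeasureTheory Topology
open MeasureTheory Module Measure Filter

noncomputable section

/-- constant sequences: the extension is at most the content of a polytope -/
lemma ext_le {d : ℕ} (k : ℕ) (P : Set (EuclideanSpace ℝ (Fin d))) (hP : IsPolytope d P) :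
    extContent k P ≤ faceContent k P := by
  unfold extContent
  refine (iInf₂_le (fun _ : ℕ => P) ⟨fun _ => hP, ?_⟩).trans ?_
  · simp
  · simp

/-- near-optimal polytopes for `ζ_k` which also nearly respect the value of `ζ_m` -/
lemma approx {d : ℕ} (k m : ℕ) (K : Set (EuclideanSpace ℝ (Fin d))) (hk : extContent k K ≠ ⊤)
    (η : ℝ) (hη : 0 < η) :
    ∃ P : Set (EuclideanSpace ℝ (Fin d)), IsPolytope d P ∧
      Metric.hausdorffEDist P K < ENNReal.ofReal η ∧
      (faceContent k P).toReal ≤ (extContent k K).toReal + η ∧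
      (extContent m K).toReal ≤ (faceContent m P).toReal + η := by
  have hηe : (0 : ENNReal) < ENNReal.ofReal η := ENNReal.ofReal_pos.mpr hη
  have h1 : extContent k K < extContent k K + ENNReal.ofReal η :=
    ENNReal.lt_add_right hk hηe.ne'
  have h1' := h1
  conv_lhs at h1' => unfold extContent
  rw [iInf_lt_iff] at h1'
  obtain ⟨P, hP1⟩ := h1'
  rw [iInf_lt_iff] at hP1
  obtain ⟨⟨hPpoly, hPlim⟩, hPlt⟩ := hP1
  have hfreq := Filter.frequently_lt_of_liminf_lt (by isBoundedDefault) hPlt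
  have hev1 : ∀ᶠ n in atTop, Metric.hausdorffEDist (P n) K < ENNReal.ofReal η :=
    hPlim.eventually_lt_const hηe
  have hev2 : ∀ᶠ n in atTop, (extContent m K).toReal ≤ (faceContent m (P n)).toReal + η := by
    by_cases hm : extContent m K = ⊤
    · refine Eventually.of_forall fun n => ?_
      rw [hm, ENNReal.toReal_top]
      positivity
    by_cases hm0 : extContent m K = 0
    · refine Eventually.of_forall fun n => ?_
      rw [hm0, ENNReal.toReal_zero]
      positivity
    have hle : extContent m K ≤ liminf (fun n => faceContent m (P n)) atTop :=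
      iInf₂_le P ⟨hPpoly, hPlim⟩
    have hlt : extContent m K - ENNReal.ofReal η < liminf (fun n => faceContent m (P n)) atTop :=
      (ENNReal.sub_lt_self hm hm0 hηe.ne').trans_le hle
    have hev := Filter.eventually_lt_of_lt_liminf hlt
    filter_upwards [hev] with n hn
    have hfin := Poly.faceContent_lt_top (P n) (hPpoly n) m
    have h3 : extContent m K ≤ faceContent m (P n) + ENNReal.ofReal η :=
      tsub_le_iff_right.mp hn.le
    have h4 := ENNReal.toReal_mono (ENNReal.add_ne_top.mpr ⟨hfin.ne, ENNReal.ofReal_ne_top⟩) h3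
    rwa [ENNReal.toReal_add hfin.ne ENNReal.ofReal_ne_top, ENNReal.toReal_ofReal hη.le] at h4
  obtain ⟨n, hn, hn1, hn2⟩ := (hfreq.and_eventually (hev1.and hev2)).exists
  refine ⟨P n, hPpoly n, hn1, ?_, hn2⟩
  have h4 := ENNReal.toReal_mono (ENNReal.add_ne_top.mpr ⟨hk, ENNReal.ofReal_ne_top⟩) hn.le
  rwa [ENNReal.toReal_add hk ENNReal.ofReal_ne_top, ENNReal.toReal_ofReal hη.le] at h4

/-- polynomial inequalities pass to the limit -/
lemma limit_le (f g : ℝ → ℝ) (hf : Continuous f) (hg : Continuous g)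
    (h : ∀ η : ℝ, 0 < η → f η ≤ g η) : f 0 ≤ g 0 := by
  have h1 : Tendsto f (𝓝[>] 0) (𝓝 (f 0)) := (hf.tendsto 0).mono_left nhdsWithin_le_nhds
  have h2 : Tendsto g (𝓝[>] 0) (𝓝 (g 0)) := (hg.tendsto 0).mono_left nhdsWithin_le_nhds
  refine le_of_tendsto_of_tendsto h1 h2 ?_
  filter_upwards [self_mem_nhdsWithin] with η hη
  exact h η hη

/-- the diameter inequality for convex bodies -/
lemma diam_ext {n : ℕ} (K : Set (EuclideanSpace ℝ (Fin (n + 2))))
    (hK : extContent (n + 1) K ≠ ⊤) (x y : EuclideanSpace ℝ (Fin (n + 2))) (hx : x ∈ K)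
    (hy : y ∈ K) :
    ‖x - y‖ * (extContent (n + 2) K).toReal ^ n ≤
      ((n + 2 : ℕ) : ℝ) ^ (n + 2) * (extContent (n + 1) K).toReal ^ (n + 1) := by
  set a := (extContent (n + 2) K).toReal with ha
  set b := (extContent (n + 1) K).toReal with hb
  have ha0 : 0 ≤ a := ENNReal.toReal_nonneg
  have hb0 : 0 ≤ b := ENNReal.toReal_nonneg
  have key := limit_le (fun η => (‖x - y‖ - 2 * η) * (max (a - η) 0) ^ n)
    (fun η => ((n + 2 : ℕ) : ℝ) ^ (n + 2) * (b + η) ^ (n + 1)) (by fun_prop) (by fun_prop) ?_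
  · simpa [max_eq_left ha0] using key
  intro η hη
  show (‖x - y‖ - 2 * η) * (max (a - η) 0) ^ n ≤ ((n + 2 : ℕ) : ℝ) ^ (n + 2) * (b + η) ^ (n + 1)
  obtain ⟨P, hP, hPK, hP1, hP2⟩ := approx (n + 1) (n + 2) K hK η hη
  rw [Metric.hausdorffEDist_comm] at hPK
  obtain ⟨x', hx', hxx'⟩ := Metric.exists_edist_lt_of_hausdorffEDist_lt hx hPK
  obtain ⟨y', hy', hyy'⟩ := Metric.exists_edist_lt_of_hausdorffEDist_lt hy hPK
  rw [edist_dist, ENNReal.ofReal_lt_ofReal_iff hη, dist_eq_norm] at hxx' hyy'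
  have h1 := Poly.diam_ineq P hP x' y' hx' hy'
  have h2 : ‖x - y‖ - 2 * η ≤ ‖x' - y'‖ := by
    have h3 : x - y = (x - x') + (x' - y') - (y - y') := by abel
    have h4 : ‖x - y‖ ≤ ‖x - x'‖ + ‖x' - y'‖ + ‖y - y'‖ := by
      rw [h3]
      exact (norm_sub_le _ _).trans (add_le_add (norm_add_le _ _) le_rfl)
    linarith
  have hV0 : 0 ≤ (faceContent (n + 2) P).toReal := ENNReal.toReal_nonneg
  calc (‖x - y‖ - 2 * η) * (max (a - η) 0) ^ n
      ≤ ‖x' - y'‖ * (max (a - η) 0) ^ n :=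
        mul_le_mul_of_nonneg_right h2 (pow_nonneg (le_max_right _ _) _)
    _ ≤ ‖x' - y'‖ * (faceContent (n + 2) P).toReal ^ n := by
        apply mul_le_mul_of_nonneg_left _ (norm_nonneg _)
        apply pow_le_pow_left₀ (le_max_right _ _)
        apply max_le _ hV0
        linarith
    _ ≤ ((n + 2 : ℕ) : ℝ) ^ (n + 2) * (faceContent (n + 1) P).toReal ^ (n + 1) := h1
    _ ≤ ((n + 2 : ℕ) : ℝ) ^ (n + 2) * (b + η) ^ (n + 1) := by
        apply mul_le_mul_of_nonneg_left _ (by positivity)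
        exact pow_le_pow_left₀ ENNReal.toReal_nonneg hP1 _

/-- the area-length inequality for convex bodies -/
lemma two_one_ext {d : ℕ} (K : Set (EuclideanSpace ℝ (Fin d)))
    (hK : extContent 1 K ≠ ⊤) (D : ℝ) (hD0 : 0 ≤ D) (hD : ∀ x ∈ K, ∀ y ∈ K, ‖x - y‖ ≤ D) :
    (extContent 2 K).toReal ^ 2 ≤ 2 * 36 ^ 3 * D * (extContent 1 K).toReal ^ 3 := by
  set a := (extContent 2 K).toReal with ha
  set b := (extContent 1 K).toReal with hb
  have ha0 : 0 ≤ a := ENNReal.toReal_nonneg
  have hb0 : 0 ≤ b := ENNReal.toReal_nonneg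
  have key := limit_le (fun η => (max (a - η) 0) ^ 2)
    (fun η => 2 * 36 ^ 3 * (D + 2 * η) * (b + η) ^ 3) (by fun_prop) (by fun_prop) ?_
  · simpa [max_eq_left ha0] using key
  intro η hη
  show (max (a - η) 0) ^ 2 ≤ 2 * 36 ^ 3 * (D + 2 * η) * (b + η) ^ 3
  obtain ⟨P, hP, hPK, hP1, hP2⟩ := approx 1 2 K hK η hη
  have hPD : ∀ x ∈ P, ∀ y ∈ P, ‖x - y‖ ≤ D + 2 * η := by
    intro x hx y hy
    obtain ⟨x', hx', hxx'⟩ := Metric.exists_edist_lt_of_hausdorffEDist_lt hx hPK
    obtain ⟨y', hy', hyy'⟩ := Metric.exists_edist_lt_of_hausdorffEDist_lt hy hPK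
    rw [edist_dist, ENNReal.ofReal_lt_ofReal_iff hη, dist_eq_norm] at hxx' hyy'
    have h3 : x - y = (x - x') + (x' - y') - (y - y') := by abel
    have h4 : ‖x - y‖ ≤ ‖x - x'‖ + ‖x' - y'‖ + ‖y - y'‖ := by
      rw [h3]
      exact (norm_sub_le _ _).trans (add_le_add (norm_add_le _ _) le_rfl)
    have h5 := hD x' hx' y' hy'
    linarith
  have h1 := Poly.two_one P hP (D + 2 * η) (by positivity) hPD
  calc (max (a - η) 0) ^ 2 ≤ (faceContent 2 P).toReal ^ 2 := by
        apply pow_le_pow_left₀ (le_max_right _ _)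
        apply max_le _ ENNReal.toReal_nonneg
        linarith
    _ ≤ 2 * 36 ^ 3 * (D + 2 * η) * (faceContent 1 P).toReal ^ 3 := h1
    _ ≤ 2 * 36 ^ 3 * (D + 2 * η) * (b + η) ^ 3 := by
        apply mul_le_mul_of_nonneg_left _ (by positivity)
        exact pow_le_pow_left₀ ENNReal.toReal_nonneg hP1 _

/-- if a convex compact set is within `r/2` of a set containing the ball of radius `r`, it contains
the ball of radius `r/2` -/
lemma ball_subset {m : ℕ} (L : Set (EuclideanSpace ℝ (Fin m))) (hLc : IsCompact L)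
    (hLconv : Convex ℝ L) (c : EuclideanSpace ℝ (Fin m)) (r : ℝ) (hr : 0 < r)
    (h : ∀ w ∈ Metric.closedBall c r, ∃ w' ∈ L, ‖w - w'‖ ≤ r / 2) :
    Metric.ball c (r / 2) ⊆ L := by
  intro z hz
  by_contra hzL
  obtain ⟨f, s, hf1, hf2⟩ := geometric_hahn_banach_closed_point hLconv hLc.isClosed hzL
  set u := (InnerProductSpace.toDual ℝ (EuclideanSpace ℝ (Fin m))).symm f with hu
  have hfu : ∀ w, f w = inner ℝ u w := by
    intro w
    rw [hu, InnerProductSpace.toDual_symm_apply]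
  obtain ⟨w0, hw0L, hw0⟩ := h c (Metric.mem_closedBall_self hr.le)
  have hune : u ≠ 0 := by
    intro h0
    have h1 := hf1 w0 hw0L
    rw [hfu, h0, inner_zero_left] at h1
    rw [hfu, h0, inner_zero_left] at hf2
    linarith
  have hun : 0 < ‖u‖ := norm_pos_iff.mpr hune
  have hwmem : c + (r / ‖u‖) • u ∈ Metric.closedBall c r := by
    rw [mem_closedBall_iff_norm, add_sub_cancel_left, norm_smul, Real.norm_of_nonneg (by positivity),
      div_mul_cancel₀ _ hun.ne']
  obtain ⟨w', hw'L, hw'⟩ := h _ hwmem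
  have h1 := hf1 w' hw'L
  rw [hfu] at h1 hf2
  have h2 : inner ℝ u z ≤ inner ℝ u c + ‖u‖ * (r / 2) := by
    have h3 : z = c + (z - c) := by abel
    rw [h3, inner_add_right]
    have h4 := real_inner_le_norm u (z - c)
    have h5 : ‖z - c‖ ≤ r / 2 := by
      have := mem_ball_iff_norm.mp hz
      exact this.le
    have h6 := mul_le_mul_of_nonneg_left h5 hun.le
    linarith
  have h3 : inner ℝ u (c + (r / ‖u‖) • u) ≤ inner ℝ u w' + ‖u‖ * (r / 2) := by
    have h4 : c + (r / ‖u‖) • u = w' + (c + (r / ‖u‖) • u - w') := by abel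
    rw [h4, inner_add_right]
    have h5 := real_inner_le_norm u (c + (r / ‖u‖) • u - w')
    have h6 := mul_le_mul_of_nonneg_left hw' hun.le
    linarith
  rw [inner_add_right, inner_smul_right, real_inner_self_eq_norm_sq] at h3
  have h4 : r / ‖u‖ * ‖u‖ ^ 2 = ‖u‖ * r := by field_simp
  rw [h4] at h3
  linarith

/-- lower bound for the extension: projections -/
lemma ext_ge {d m : ℕ} (K : Set (EuclideanSpace ℝ (Fin d)))
    (p : EuclideanSpace ℝ (Fin d) →ₗ[ℝ] EuclideanSpace ℝ (Fin m)) (hp : LipschitzWith 1 p)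
    (c : EuclideanSpace ℝ (Fin m)) (r : ℝ) (hr : 0 < r)
    (hK : Metric.closedBall c r ⊆ p '' K) :
    (volume : Measure (EuclideanSpace ℝ (Fin m))) (Metric.ball c (r / 2)) ≤ extContent m K := by
  unfold extContent
  apply le_iInf₂
  rintro P ⟨hPpoly, hPlim⟩
  have hr2 : (0 : ENNReal) < ENNReal.ofReal (r / 2) := ENNReal.ofReal_pos.mpr (by positivity)
  apply Filter.le_liminf_of_le (by isBoundedDefault)
  filter_upwards [hPlim.eventually_lt_const hr2] with n hn
  refine le_trans (measure_mono ?_) (Proj.shadow_le (P n) (hPpoly n) p hp)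
  obtain ⟨⟨S, hS⟩, hint⟩ := hPpoly n
  have hPc : IsCompact (P n) := by rw [hS]; exact S.finite_toSet.isCompact_convexHull ℝ
  have hPconv : Convex ℝ (P n) := by rw [hS]; exact convex_convexHull ℝ _
  apply ball_subset (p '' (P n)) (hPc.image hp.continuous) (hPconv.linear_image p) c r hr
  intro w hw
  obtain ⟨x, hx, rfl⟩ := hK hw
  rw [Metric.hausdorffEDist_comm] at hn
  obtain ⟨x', hx', hxx'⟩ := Metric.exists_edist_lt_of_hausdorffEDist_lt hx hn
  rw [edist_dist, ENNReal.ofReal_lt_ofReal_iff (by positivity)] at hxx'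
  refine ⟨p x', ⟨x', hx', rfl⟩, ?_⟩
  have h1 := hp.dist_le_mul x x'
  rw [NNReal.coe_one, one_mul, dist_eq_norm] at h1
  linarith

/-- the projection to the first `m` coordinates -/
def proj {d m : ℕ} (h : m ≤ d) : EuclideanSpace ℝ (Fin d) →ₗ[ℝ] EuclideanSpace ℝ (Fin m) where
  toFun y := WithLp.toLp 2 (fun i => y (Fin.castLE h i))
  map_add' x y := by ext i; rfl
  map_smul' c x := by ext i; rfl

lemma proj_apply {d m : ℕ} (h : m ≤ d) (y : EuclideanSpace ℝ (Fin d)) (i : Fin m) :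
    proj h y i = y (Fin.castLE h i) := rfl

lemma proj_lipschitz {d m : ℕ} (h : m ≤ d) : LipschitzWith 1 (proj h) := by
  apply LipschitzWith.of_dist_le_mul
  intro x y
  rw [NNReal.coe_one, one_mul, EuclideanSpace.dist_eq, EuclideanSpace.dist_eq]
  apply Real.sqrt_le_sqrt
  simp only [proj_apply]
  have hinj : Function.Injective (Fin.castLE h) := Fin.castLE_injective h
  calc ∑ i : Fin m, dist (x (Fin.castLE h i)) (y (Fin.castLE h i)) ^ 2
      = ∑ j ∈ Finset.univ.map ⟨Fin.castLE h, hinj⟩, dist (x j) (y j) ^ 2 := by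
        rw [Finset.sum_map]; rfl
    _ ≤ ∑ j : Fin d, dist (x j) (y j) ^ 2 := by
        apply Finset.sum_le_sum_of_subset_of_nonneg (Finset.subset_univ _)
        intro i _ _
        positivity

/-- lower bound for the extension on boxes -/
lemma ext_box_ge {d m : ℕ} (h : m ≤ d) (a : Fin d → ℝ) (ha : ∀ i, 0 ≤ a i) (s : ℝ) (hs : 0 < s)
    (hsa : ∀ i : Fin m, s ≤ a (Fin.castLE h i)) :
    (volume : Measure (EuclideanSpace ℝ (Fin m))) (Metric.ball 0 (s / 4)) ≤
      extContent m (Box.box a) := by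
  have h1 := ext_ge (Box.box a) (proj h) (proj_lipschitz h) (WithLp.toLp 2 (fun _ => s / 2)) (s / 2)
    (by positivity) ?_
  · have h2 : (volume : Measure (EuclideanSpace ℝ (Fin m)))
        (Metric.ball (WithLp.toLp 2 (fun _ => s / 2)) (s / 2 / 2)) =
        (volume : Measure (EuclideanSpace ℝ (Fin m))) (Metric.ball 0 (s / 2 / 2)) :=
      Measure.addHaar_ball_center _ _ _
    rw [h2] at h1
    have h3 : s / 2 / 2 = s / 4 := by ring
    rwa [h3] at h1
  intro w hw
  have hwi : ∀ i : Fin m, |w i - s / 2| ≤ s / 2 := by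
    intro i
    have h2 := mem_closedBall_iff_norm.mp hw
    have h3 := PiLp.norm_apply_le (w - WithLp.toLp 2 (fun _ : Fin m => s / 2)) i
    have h4 : (w - WithLp.toLp 2 (fun _ : Fin m => s / 2)) i = w i - s / 2 := rfl
    rw [h4, Real.norm_eq_abs] at h3
    exact h3.trans h2
  refine ⟨WithLp.toLp 2 (fun j : Fin d => if hj : (j : ℕ) < m then w ⟨j, hj⟩ else 0), ?_, ?_⟩
  · intro j
    show 0 ≤ (if hj : (j : ℕ) < m then w ⟨j, hj⟩ else 0) ∧
      (if hj : (j : ℕ) < m then w ⟨j, hj⟩ else 0) ≤ a j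
    split_ifs with hj
    · have h2 := abs_le.mp (hwi ⟨j, hj⟩)
      have h3 := hsa ⟨j, hj⟩
      have h4 : Fin.castLE h ⟨j, hj⟩ = j := Fin.ext rfl
      rw [h4] at h3
      constructor <;> linarith [h2.1, h2.2]
    · exact ⟨le_rfl, ha j⟩
  · ext i
    rw [proj_apply]
    show (if hj : ((Fin.castLE h i : Fin d) : ℕ) < m then w ⟨_, hj⟩ else 0) = w i
    rw [dif_pos (by simp)]
    rfl

end

end Pool.Agent.Helper37.FC.Ext
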