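import Mathlib

/-!
Lower bound for the total weight of linearly independent tuples.
-/

set_option autoImplicit false

namespace Pool.Agent.Helper37.FC.Greedy

open scoped BigOperators

noncomputable section

open Classical in
/-- If every subspace of dimension at most `j` misses weight at least `s j`, then the independent
`k`-tuples have total weight at least `s 0 * ... * s (k-1)`. -/
theorem greedy {V G : Type*} [AddCommGroup V] [Module ℝ V] [Fintype G] (u : G → V) (w : G → ℝ)
    (hw : ∀ g, 0 ≤ w g) (s : ℕ → ℝ) (hs0 : ∀ j, 0 ≤ s j) (k : ℕ)
    (hs : ∀ j < k, ∀ U : Submodule ℝ V, FiniteDimensional ℝ U → Module.finrank ℝ U ≤ j →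
      s j ≤ ∑ g ∈ Finset.univ.filter (fun g => u g ∉ U), w g) :
    ∏ j ∈ Finset.range k, s j ≤
      ∑ τ ∈ Finset.univ.filter (fun τ : Fin k → G => LinearIndependent ℝ (fun i => u (τ i))),
        ∏ i, w (τ i) := by
  induction k with
  | zero =>
    have : (Finset.univ.filter (fun τ : Fin 0 → G => LinearIndependent ℝ (fun i => u (τ i))))
        = Finset.univ := by
      apply Finset.filter_true_of_mem
      intro τ _
      exact linearIndependent_empty_type
    rw [this]
    simp
  | succ k ih =>
    have ih' := ih (fun j hj => hs j (Nat.lt_succ_of_lt hj))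
    rw [Finset.prod_range_succ]
    -- rewrite tuples of length k+1 as snoc
    have h1 : ∑ τ ∈ Finset.univ.filter (fun τ : Fin (k + 1) → G => LinearIndependent ℝ (fun i => u (τ i))),
        ∏ i, w (τ i) = ∑ τ ∈ Finset.univ.filter (fun τ : Fin k → G => LinearIndependent ℝ (fun i => u (τ i))),
          ∑ g ∈ Finset.univ.filter (fun g => u g ∉ Submodule.span ℝ (Set.range (fun i => u (τ i)))),
            (∏ i, w (τ i)) * w g := by
      rw [Finset.sum_sigma']
      symm
      refine Finset.sum_bij (fun (x : Σ _ : Fin k → G, G) _ => (Fin.snoc x.1 x.2 : Fin (k + 1) → G)) ?_ ?_ ?_ ?_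
      · rintro ⟨τ, g⟩ hx
        simp only [Finset.mem_sigma, Finset.mem_filter, Finset.mem_univ, true_and] at hx ⊢
        have : (fun i => u ((Fin.snoc τ g : Fin (k + 1) → G) i)) = Fin.snoc (fun i => u (τ i)) (u g) := by
          funext i
          refine Fin.lastCases ?_ (fun j => ?_) i
          · simp
          · simp
        rw [this, linearIndependent_finSnoc]
        exact hx
      · rintro ⟨τ, g⟩ _ ⟨τ', g'⟩ _ h
        have h1 : τ = τ' := by
          funext i
          have := congrFun h (Fin.castSucc i)
          simpa using this
        have h2 : g = g' := by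
          have := congrFun h (Fin.last k)
          simpa using this
        rw [h1, h2]
      · intro τ hτ
        refine ⟨⟨fun i => τ (Fin.castSucc i), τ (Fin.last k)⟩, ?_, ?_⟩
        · simp only [Finset.mem_sigma, Finset.mem_filter, Finset.mem_univ, true_and] at hτ ⊢
          have : (fun i => u (τ i)) = Fin.snoc (fun i => u (τ (Fin.castSucc i))) (u (τ (Fin.last k))) := by
            funext i
            refine Fin.lastCases ?_ (fun j => ?_) i
            · simp
            · simp
          rw [this, linearIndependent_finSnoc] at hτ
          exact hτ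
        · funext i
          refine Fin.lastCases ?_ (fun j => ?_) i
          · simp
          · simp
      · rintro ⟨τ, g⟩ _
        rw [Fin.prod_univ_castSucc]
        simp
    rw [h1]
    calc (∏ j ∈ Finset.range k, s j) * s k
        ≤ (∑ τ ∈ Finset.univ.filter (fun τ : Fin k → G => LinearIndependent ℝ (fun i => u (τ i))),
            ∏ i, w (τ i)) * s k := mul_le_mul_of_nonneg_right ih' (hs0 k)
      _ = ∑ τ ∈ Finset.univ.filter (fun τ : Fin k → G => LinearIndependent ℝ (fun i => u (τ i))),
            (∏ i, w (τ i)) * s k := by rw [Finset.sum_mul]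
      _ ≤ _ := by
          apply Finset.sum_le_sum
          intro τ _
          rw [← Finset.mul_sum]
          apply mul_le_mul_of_nonneg_left _ (Finset.prod_nonneg (fun i _ => hw _))
          apply hs k (Nat.lt_succ_self k)
          · exact FiniteDimensional.span_of_finite ℝ (Set.finite_range _)
          · have := finrank_range_le_card (R := ℝ) (fun i => u (τ i))
            simpa [Set.finrank] using this

end

end Pool.Agent.Helper37.FC.Greedy
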