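import Pool.Agent.Helper37.FC.Geom
import Pool.Agent.Helper37.FC.Greedy

/-!
The facet inequality: independent tuples of facets have large total weight.
-/

set_option autoImplicit false

namespace Pool.Agent.Helper37.FC.GI

open scoped BigOperators RealInnerProductSpace
open MeasureTheory Module

noncomputable section

variable {E : Type*} [NormedAddCommGroup E] [InnerProductSpace ℝ E] [FiniteDimensional ℝ E]

/-- a direction along which no facet of `U` is exited -/
theorem exists_direction {V G : Type*} [AddCommGroup V] [Module ℝ V]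
    (lin : V →ₗ[ℝ] Module.Dual ℝ E) (c0 : V →ₗ[ℝ] ℝ) (u : G → V) (inF : G → Prop) (ε : G → ℝ)
    (x0 : E) (hpos : ∀ g, inF g → 0 < ε g * (c0 (u g) + lin (u g) x0))
    (U : Submodule ℝ V) [FiniteDimensional ℝ U] (W : Submodule ℝ E)
    (hUW : finrank ℝ U ≤ finrank ℝ W) (hW : 0 < finrank ℝ W) :
    ∃ y ∈ W, y ≠ 0 ∧ ∀ g, inF g → u g ∈ U → 0 ≤ ε g * lin (u g) y := by
  -- the pairing map W → Dual U
  let Λ : W →ₗ[ℝ] Module.Dual ℝ U :=
    ((Module.Dual.transpose (R := ℝ) U.subtype) ∘ₗ (LinearMap.flip lin)) ∘ₗ W.subtype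
  have hΛ : ∀ (y : W) (a : U), Λ y a = lin a y := fun y a => rfl
  by_cases hker : LinearMap.ker Λ = ⊥
  · -- Λ is bijective
    have hinj : Function.Injective Λ := LinearMap.ker_eq_bot.mp hker
    have hdim : finrank ℝ W = finrank ℝ (Module.Dual ℝ U) := by
      have h1 := LinearMap.finrank_le_finrank_of_injective hinj
      have h2 : finrank ℝ (Module.Dual ℝ U) = finrank ℝ U := Subspace.dual_finrank_eq
      omega
    have hsurj : Function.Surjective Λ :=
      (LinearMap.injective_iff_surjective_of_finrank_eq_finrank hdim).mp hinj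
    obtain ⟨y, hy⟩ := hsurj ((c0 + (LinearMap.flip lin) x0).comp U.subtype)
    have hy' : ∀ a : U, lin a y = c0 a + lin a x0 := by
      intro a
      have := congrArg (fun f => f a) hy
      simpa [hΛ] using this
    by_cases hy0 : (y : E) = 0
    · -- no facet of U
      obtain ⟨z, hz0⟩ := (Module.finrank_pos_iff_exists_ne_zero (R := ℝ)).mp hW
      refine ⟨z, z.2, fun h => hz0 (Subtype.ext h), ?_⟩
      intro g hg hgU
      exfalso
      have h1 := hy' ⟨u g, hgU⟩
      have h2 := hpos g hg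
      simp only at h1
      rw [← h1, hy0, map_zero, mul_zero] at h2
      exact lt_irrefl _ h2
    · refine ⟨y, y.2, hy0, ?_⟩
      intro g hg hgU
      have h1 := hy' ⟨u g, hgU⟩
      simp only at h1
      rw [h1]
      exact (hpos g hg).le
  · obtain ⟨y, hy, hy0⟩ := (Submodule.ne_bot_iff _).mp hker
    refine ⟨y, y.2, fun h => hy0 (Subtype.ext h), ?_⟩
    intro g _ hgU
    have h1 : Λ y ⟨u g, hgU⟩ = 0 := by rw [LinearMap.mem_ker.mp hy]; rfl
    rw [hΛ] at h1
    simp only at h1
    rw [h1, mul_zero]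

variable [MeasurableSpace E] [BorelSpace E]

open Classical in
/-- The facet inequality. -/
theorem facet_ineq {V G : Type*} [AddCommGroup V] [Module ℝ V] [Fintype G]
    (m : ℕ) (hm : 0 < m) (hE : finrank ℝ E = m) (K : Set E) (hKc : IsCompact K)
    (hKconv : Convex ℝ K) (x0 : E) (hx0 : x0 ∈ interior K)
    (lin : V →ₗ[ℝ] Module.Dual ℝ E) (c0 : V →ₗ[ℝ] ℝ) (u : G → V) (w : G → ℝ) (hw : ∀ g, 0 ≤ w g)
    (inF : G → Prop) (ε : G → ℝ)
    (hpos : ∀ g, inF g → 0 < ε g * (c0 (u g) + lin (u g) x0))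
    (hshadow : ∀ (y : E) (L : ℝ), y ≠ 0 → 0 ≤ L → (∀ x ∈ K, ∀ t : ℝ, 0 ≤ t → x + t • y ∈ K → t * ‖y‖ ≤ L) →
      ((volume : Measure E) K).toReal ≤
        L * ∑ g ∈ Finset.univ.filter (fun g => inF g ∧ ε g * lin (u g) y < 0), w g) :
    (((volume : Measure E) K).toReal) ^ ((m : ℝ) - (m : ℝ)⁻¹) / (m : ℝ) ^ (m + 1) ≤
      ∑ τ ∈ Finset.univ.filter (fun τ : Fin (m + 1) → G => LinearIndependent ℝ (fun i => u (τ i))),
        ∏ i, w (τ i) := by
  classical
  set vol := ((volume : Measure E) K).toReal with hvol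
  have hmR : (0 : ℝ) < m := by exact_mod_cast hm
  have hvolpos : 0 < vol := by
    rw [hvol, ENNReal.toReal_pos_iff]
    constructor
    · exact Measure.measure_pos_of_nonempty_interior _ ⟨x0, hx0⟩
    · exact hKc.measure_lt_top
  obtain ⟨v, hv⟩ := Geom.exists_chords K hKc ⟨x0, hx0⟩ m hE.ge
  -- volume bound
  have hbox : ∏ i ∈ Finset.range m, ‖v i‖ ≤ (m : ℝ) ^ m * vol := by
    have h1 := Geom.vol_lower K hKconv m hm hE (fun i : Fin m => v i) (fun i => (hv i i.2).1)
      (fun i => (hv i i.2).2.1) (by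
        intro i j hij
        rcases lt_or_gt_of_ne (fun h => hij (Fin.ext h) : (i : ℕ) ≠ j) with h | h
        · exact (hv j j.2).2.2.1 i h
        · rw [real_inner_comm]; exact (hv i i.2).2.2.1 j h)
    have h2 := (ENNReal.ofReal_le_iff_le_toReal hKc.measure_lt_top.ne).mp h1
    rw [div_le_iff₀ (by positivity)] at h2
    rw [Finset.prod_range]
    linarith
  have hvn : ∀ i < m, 0 < ‖v i‖ := fun i hi => norm_pos_iff.mpr (hv i hi).2.1
  -- lower bounds for missing subspaces
  set s : ℕ → ℝ := fun j => vol / ‖v (m - max j 1)‖ with hs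
  have hs0 : ∀ j, 0 ≤ s j := fun j => div_nonneg hvolpos.le (norm_nonneg _)
  have hsU : ∀ j < m + 1, ∀ U : Submodule ℝ V, FiniteDimensional ℝ U → finrank ℝ U ≤ j →
      s j ≤ ∑ g ∈ Finset.univ.filter (fun g => u g ∉ U), w g := by
    intro j hj U hUfd hUj
    set j' := max j 1 with hj'
    have hj1 : 1 ≤ j' := le_max_right _ _
    have hjm : j' ≤ m := max_le (by omega) (by omega)
    have hUj' : finrank ℝ U ≤ j' := hUj.trans (le_max_left _ _)
    set S : Submodule ℝ E := Submodule.span ℝ (v '' {b | b < m - j'}) with hS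
    have hSd : finrank ℝ S ≤ m - j' := by
      have hfin : (v '' {b | b < m - j'}).Finite := (Set.finite_lt_nat _).image v
      have := hfin.fintype
      have h2 := finrank_span_le_card (R := ℝ) (v '' {b | b < m - j'})
      refine h2.trans ?_
      rw [← Set.ncard_eq_toFinset_card']
      refine (Set.ncard_image_le (Set.finite_lt_nat _)).trans ?_
      have : {b | b < m - j'} = (Finset.range (m - j') : Set ℕ) := by ext b; simp
      rw [this, Set.ncard_coe_finset, Finset.card_range]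
    have hWd : j' ≤ finrank ℝ (Sᗮ : Submodule ℝ E) := by
      have h3 := Submodule.finrank_add_finrank_orthogonal S
      omega
    obtain ⟨y, hyW, hy0, hy⟩ := exists_direction lin c0 u inF ε x0 hpos U Sᗮ (hUj'.trans hWd)
      (by omega)
    have hidx : m - j' < m := by omega
    have hsh := hshadow y ‖v (m - j')‖ hy0 (norm_nonneg _) (by
      intro x hx t ht hxt
      have h4 := (hv (m - j') hidx).2.2.2 (x + t • y) hxt x hx (by
        intro b hb
        rw [add_sub_cancel_left, inner_smul_right]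
        have : ⟪v b, y⟫ = 0 := by
          apply (Submodule.mem_orthogonal S y).mp hyW
          exact Submodule.subset_span ⟨b, hb, rfl⟩
        rw [this, mul_zero])
      rw [add_sub_cancel_left, norm_smul, Real.norm_of_nonneg ht] at h4
      exact h4)
    have hle : ∑ g ∈ Finset.univ.filter (fun g => inF g ∧ ε g * lin (u g) y < 0), w g ≤
        ∑ g ∈ Finset.univ.filter (fun g => u g ∉ U), w g := by
      apply Finset.sum_le_sum_of_subset_of_nonneg
      · intro g hg
        rw [Finset.mem_filter] at hg ⊢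
        refine ⟨hg.1, ?_⟩
        intro hgU
        have := hy g hg.2.1 hgU
        linarith [hg.2.2]
      · intro g _ _; exact hw g
    rw [hs]
    simp only
    rw [div_le_iff₀ (hvn _ hidx)]
    calc vol ≤ ‖v (m - j')‖ * _ := hsh
      _ ≤ ‖v (m - j')‖ * _ := mul_le_mul_of_nonneg_left hle (norm_nonneg _)
      _ = _ := mul_comm _ _
  have hgreedy := Greedy.greedy u w hw s hs0 (m + 1) hsU
  refine le_trans ?_ hgreedy
  -- compute the product
  have hprod : ∏ j ∈ Finset.range (m + 1), s j =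
      vol ^ (m + 1) / (‖v (m - 1)‖ * ∏ i ∈ Finset.range m, ‖v i‖) := by
    rw [Finset.prod_range_succ']
    have h1 : s 0 = vol / ‖v (m - 1)‖ := by simp [hs]
    have h2 : ∀ j ∈ Finset.range m, s (j + 1) = vol / ‖v (m - 1 - j)‖ := by
      intro j _
      rw [hs]
      simp only
      rw [max_eq_left (by omega)]
      congr 3
      omega
    rw [h1, Finset.prod_congr rfl h2, Finset.prod_range_reflect (fun i => vol / ‖v i‖) m,
      Finset.prod_div_distrib, Finset.prod_const, Finset.card_range, pow_succ]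
    have h3 : (∏ i ∈ Finset.range m, ‖v i‖) ≠ 0 :=
      Finset.prod_ne_zero_iff.mpr (fun i hi => (hvn i (Finset.mem_range.mp hi)).ne')
    have h4 := (hvn (m - 1) (by omega)).ne'
    field_simp
  rw [hprod]
  -- the last chord is the shortest
  have hlast : ∀ i < m, ‖v (m - 1)‖ ≤ ‖v i‖ := by
    intro i hi
    obtain ⟨x, hx, y, hy, hxy⟩ := (hv (m - 1) (by omega)).1
    have := (hv i hi).2.2.2 x hx y hy (by
      intro b hb
      rw [hxy]
      exact (hv (m - 1) (by omega)).2.2.1 b (by omega))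
    rwa [hxy] at this
  have hlastpow : ‖v (m - 1)‖ ^ m ≤ ∏ i ∈ Finset.range m, ‖v i‖ := by
    have h1 : ‖v (m - 1)‖ ^ m = ∏ _i ∈ Finset.range m, ‖v (m - 1)‖ := by simp
    rw [h1]
    apply Finset.prod_le_prod
    · intro i _; exact norm_nonneg _
    · intro i hi; exact hlast i (Finset.mem_range.mp hi)
  have hlast2 : ‖v (m - 1)‖ ≤ m * vol ^ ((m : ℝ)⁻¹) := by
    have h1 : ‖v (m - 1)‖ ^ m ≤ (m * vol ^ ((m : ℝ)⁻¹)) ^ m := by
      rw [mul_pow, ← Real.rpow_natCast (vol ^ ((m : ℝ)⁻¹)), ← Real.rpow_mul hvolpos.le,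
        inv_mul_cancel₀ hmR.ne', Real.rpow_one]
      exact hlastpow.trans hbox
    exact le_of_pow_le_pow_left₀ (by omega) (by positivity) h1
  have hden : ‖v (m - 1)‖ * ∏ i ∈ Finset.range m, ‖v i‖ ≤
      (m * vol ^ ((m : ℝ)⁻¹)) * ((m : ℝ) ^ m * vol) := by
    apply mul_le_mul hlast2 hbox
    · exact Finset.prod_nonneg (fun i _ => norm_nonneg _)
    · positivity
  have hdenpos : 0 < ‖v (m - 1)‖ * ∏ i ∈ Finset.range m, ‖v i‖ := by
    apply mul_pos (hvn _ (by omega))
    exact Finset.prod_pos (fun i hi => hvn i (Finset.mem_range.mp hi))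
  rw [div_le_div_iff₀ (by positivity) hdenpos]
  have hexp : vol ^ ((m : ℝ) - (m : ℝ)⁻¹) * (vol ^ ((m : ℝ)⁻¹) * vol) = vol ^ (m + 1) := by
    rw [← mul_assoc, ← Real.rpow_add hvolpos, sub_add_cancel, Real.rpow_natCast, pow_succ]
  calc vol ^ ((m : ℝ) - (m : ℝ)⁻¹) * (‖v (m - 1)‖ * ∏ i ∈ Finset.range m, ‖v i‖)
      ≤ vol ^ ((m : ℝ) - (m : ℝ)⁻¹) * ((m * vol ^ ((m : ℝ)⁻¹)) * ((m : ℝ) ^ m * vol)) :=
        mul_le_mul_of_nonneg_left hden (by positivity)
    _ = (vol ^ ((m : ℝ) - (m : ℝ)⁻¹) * (vol ^ ((m : ℝ)⁻¹) * vol)) * (m : ℝ) ^ (m + 1) := by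
        rw [pow_succ (m : ℝ) m]; ring
    _ = vol ^ (m + 1) * (m : ℝ) ^ (m + 1) := by rw [hexp]

end

end Pool.Agent.Helper37.FC.GI
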