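import Pool.Agent.Helper37.FC.Defs
import Pool.Agent.Helper37.FC.Poly
import Pool.Agent.Helper37.FC.Proj
import Pool.Agent.Helper37.FC.Box
import Pool.Agent.Helper37.FC.Ext
import Pool.Agent.Helper37.FC.Abs

/-!
Non-convexity of the cones of content vectors in dimension at least four.
-/

set_option autoImplicit false

namespace Pool.Agent.Helper37.FC.Final

open scoped BigOperators MeasureTheory Topology
open MeasureTheory Module Measure Filter

noncomputable section

/-- the vector of the roots of the contents -/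
def vec {d : ℕ} (Z : ℕ → Set (EuclideanSpace ℝ (Fin d)) → ENNReal)
    (K : Set (EuclideanSpace ℝ (Fin d))) : Fin d → ℝ :=
  fun i => (Z (i + 1) K).toReal ^ ((1 : ℝ) / ((i : ℝ) + 1))

lemma vec_nonneg {d : ℕ} (Z : ℕ → Set (EuclideanSpace ℝ (Fin d)) → ENNReal)
    (K : Set (EuclideanSpace ℝ (Fin d))) (i : Fin d) : 0 ≤ vec Z K i :=
  Real.rpow_nonneg ENNReal.toReal_nonneg _

lemma vec_pow {d : ℕ} (Z : ℕ → Set (EuclideanSpace ℝ (Fin d)) → ENNReal)
    (K : Set (EuclideanSpace ℝ (Fin d))) (i : Fin d) (k : ℕ) (hk : (i : ℕ) + 1 = k) :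
    vec Z K i ^ k = (Z k K).toReal := by
  subst hk
  unfold vec
  rw [← Real.rpow_natCast, ← Real.rpow_mul ENNReal.toReal_nonneg]
  have : (1 : ℝ) / ((i : ℝ) + 1) * (((i : ℕ) + 1 : ℕ) : ℝ) = 1 := by
    push_cast
    have : ((i : ℝ) + 1) ≠ 0 := by positivity
    field_simp
  rw [this, Real.rpow_one]

lemma vec_le {d : ℕ} (Z : ℕ → Set (EuclideanSpace ℝ (Fin d)) → ENNReal)
    (K : Set (EuclideanSpace ℝ (Fin d))) (i : Fin d) (k : ℕ) (hk : (i : ℕ) + 1 = k) (t : ℝ)
    (ht : 0 ≤ t) (h : Z k K ≤ ENNReal.ofReal (t ^ k)) : vec Z K i ≤ t := by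
  have h1 := ENNReal.toReal_le_of_le_ofReal (by positivity) h
  rw [← vec_pow Z K i k hk] at h1
  exact (pow_le_pow_iff_left₀ (vec_nonneg Z K i) ht (by omega)).mp h1

lemma le_vec {d : ℕ} (Z : ℕ → Set (EuclideanSpace ℝ (Fin d)) → ENNReal)
    (K : Set (EuclideanSpace ℝ (Fin d))) (i : Fin d) (k : ℕ) (hk : (i : ℕ) + 1 = k) (t : ℝ)
    (hfin : Z k K ≠ ⊤) (h : ENNReal.ofReal (t ^ k) ≤ Z k K) : t ≤ vec Z K i := by
  rcases lt_or_ge t 0 with h0 | h0
  · exact h0.le.trans (vec_nonneg Z K i)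
  have h1 := ENNReal.toReal_mono hfin h
  rw [ENNReal.toReal_ofReal (by positivity), ← vec_pow Z K i k hk] at h1
  exact (pow_le_pow_iff_left₀ h0 (vec_nonneg Z K i) (by omega)).mp h1

/-- the volume of small balls, as a power -/
lemma ball_vol (m : ℕ) (hm : 0 < m) : ∃ c : ℝ, 0 < c ∧ ∀ s : ℝ, 0 < s →
    ENNReal.ofReal ((c * s) ^ m) ≤
      (volume : Measure (EuclideanSpace ℝ (Fin m))) (Metric.ball 0 (s / 4)) := by
  set v : ENNReal := (volume : Measure (EuclideanSpace ℝ (Fin m))) (Metric.ball 0 1) with hv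
  have hvpos : 0 < v := Metric.measure_ball_pos _ _ one_pos
  have hvtop : v ≠ ⊤ := measure_ball_lt_top.ne
  set w := v.toReal with hw
  have hwpos : 0 < w := ENNReal.toReal_pos hvpos.ne' hvtop
  refine ⟨min w 1 / 4, by positivity, fun s hs => ?_⟩
  rw [Measure.addHaar_ball_of_pos _ _ (by positivity), finrank_euclideanSpace, Fintype.card_fin,
    ← hv, ← ENNReal.ofReal_toReal hvtop, ← ENNReal.ofReal_mul (by positivity)]
  apply ENNReal.ofReal_le_ofReal
  have h1 : (min w 1 / 4 * s) ^ m = (min w 1) ^ m * (s / 4) ^ m := by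
    rw [← mul_pow]; ring
  rw [h1, mul_comm]
  apply mul_le_mul_of_nonneg_left _ (by positivity)
  have h2 : (min w 1) ^ m ≤ (min w 1) ^ 1 :=
    pow_le_pow_of_le_one (by positivity) (min_le_right _ _) hm
  rw [pow_one] at h2
  exact h2.trans (min_le_left _ _)

/-- the product of the side lengths of a facet -/
lemma prod_le_of {n : ℕ} (x : Fin n → ENNReal) (hx : ∀ i, x i ≤ 1) (j : Fin n) (M : ENNReal)
    (hj : x j ≤ M) : ∏ i, x i ≤ M := by
  classical
  calc ∏ i, x i ≤ ∏ i, (if i = j then M else 1) := by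
        apply Finset.prod_le_prod'
        intro i _
        split_ifs with h
        · rw [h]; exact hj
        · exact hx i
    _ = M := by simp

theorem not_convex (n : ℕ) (Z : ℕ → Set (EuclideanSpace ℝ (Fin (n + 4))) → ENNReal)
    (C : Set (EuclideanSpace ℝ (Fin (n + 4))) → Prop)
    (X : Set (Fin (n + 4) → ℝ)) (hX : X = {x | ∃ K, C K ∧ x = vec Z K})
    (hC : ∀ P, IsPolytope (n + 4) P → C P)
    (hlow : ∀ P, IsPolytope (n + 4) P → ∀ k, extContent k P ≤ Z k P)
    (hup : ∀ P, IsPolytope (n + 4) P → ∀ k, Z k P ≤ faceContent k P)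
    (hdiam : ∀ K, C K → Z (n + 3) K ≠ ⊤ → ∀ x ∈ K, ∀ y ∈ K,
      ‖x - y‖ * (Z (n + 4) K).toReal ^ (n + 2) ≤
        ((n + 4 : ℕ) : ℝ) ^ (n + 4) * (Z (n + 3) K).toReal ^ (n + 3))
    (h21 : ∀ K, C K → ∀ D : ℝ, 0 ≤ D → (∀ x ∈ K, ∀ y ∈ K, ‖x - y‖ ≤ D) →
      (Z 2 K).toReal ^ 2 ≤ 2 * 36 ^ 3 * D * (Z 1 K).toReal ^ 3)
    (hbdd : ∀ K, C K → Bornology.IsBounded K) : ¬ Convex ℝ X := by
  have hN1 : (1 : ℝ) ≤ ((2 ^ (2 ^ (n + 4)) : ℕ) : ℝ) := by
    exact_mod_cast Nat.one_le_two_pow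
  set N : ℝ := ((2 ^ (2 ^ (n + 4)) : ℕ) : ℝ) with hN
  have hN0 : 0 ≤ N := zero_le_one.trans hN1
  have hNE : ((2 ^ (2 ^ (n + 4)) : ℕ) : ENNReal) = ENNReal.ofReal N := by
    rw [hN, ENNReal.ofReal_natCast]
  obtain ⟨c2, hc2, hb2⟩ := ball_vol 2 two_pos
  obtain ⟨c3, hc3, hb3⟩ := ball_vol (n + 4) (by omega)
  obtain ⟨c4, hc4, hb4⟩ := ball_vol (n + 3) (by omega)
  refine Abs.not_convex_of n X ⟨0, by omega⟩ ⟨1, by omega⟩ ⟨n + 2, by omega⟩ ⟨n + 3, by omega⟩
    (((n + 4 : ℕ) : ℝ) ^ (n + 4)) (N * (2 * ((n + 4 : ℕ) : ℝ))) N (min c2 c3)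
    (by positivity) (by positivity) hN0 (lt_min hc2 hc3) ?_ ?_ ?_
  · intro x hx i
    rw [hX] at hx
    obtain ⟨K, -, rfl⟩ := hx
    exact vec_nonneg Z K i
  · intro x hx hpos
    rw [hX] at hx
    obtain ⟨K, hCK, rfl⟩ := hx
    have hZ3 : Z (n + 3) K ≠ ⊤ := by
      intro htop
      have h1 := vec_pow Z K ⟨n + 2, by omega⟩ (n + 3) rfl
      rw [htop, ENNReal.toReal_top] at h1
      have h2 : 0 < vec Z K ⟨n + 2, by omega⟩ ^ (n + 3) := pow_pos hpos _
      linarith
    refine ⟨Metric.diam K, Metric.diam_nonneg, ?_, ?_⟩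
    · rw [vec_pow Z K _ (n + 4) rfl, vec_pow Z K _ (n + 3) rfl]
      have hR : 0 ≤ ((n + 4 : ℕ) : ℝ) ^ (n + 4) * (Z (n + 3) K).toReal ^ (n + 3) :=
        mul_nonneg (by positivity) (pow_nonneg ENNReal.toReal_nonneg _)
      rcases (pow_nonneg (ENNReal.toReal_nonneg (a := Z (n + 4) K)) (n + 2)).eq_or_lt with h0 | h0
      · rw [← h0, mul_zero]; exact hR
      · rw [← le_div_iff₀ h0]
        apply Metric.diam_le_of_forall_dist_le (div_nonneg hR h0.le)
        intro x hx y hy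
        rw [dist_eq_norm, le_div_iff₀ h0]
        exact hdiam K hCK hZ3 x hx y hy
    · rw [vec_pow Z K _ 2 rfl]
      have h1 : vec Z K ⟨0, by omega⟩ = (Z 1 K).toReal := by
        have := vec_pow Z K ⟨0, by omega⟩ 1 rfl
        rwa [pow_one] at this
      rw [h1]
      apply h21 K hCK _ Metric.diam_nonneg
      intro x hx y hy
      rw [← dist_eq_norm]
      exact Metric.dist_le_diam_of_mem (hbdd K hCK) hx hy
  · intro δ hδ hδ1
    -- the two boxes
    set a : Fin (n + 4) → ℝ := fun i => if (i : ℕ) < 2 then 1 else δ ^ (n + 3) with ha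
    have hδp : 0 < δ ^ (n + 3) := pow_pos hδ _
    have hδp1 : δ ^ (n + 3) ≤ 1 := pow_le_one₀ hδ.le hδ1
    have ha0 : ∀ i, 0 < a i := by
      intro i
      rw [ha]
      dsimp only
      split_ifs
      · exact one_pos
      · exact hδp
    have ha1 : ∀ i, a i ≤ 1 := by
      intro i
      rw [ha]
      dsimp only
      split_ifs
      · exact le_rfl
      · exact hδp1
    have hQ := Box.isPolytope_box a ha0
    set b : Fin (n + 4) → ℝ := fun _ => δ with hb
    have hb0 : ∀ i, 0 < b i := fun _ => hδ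
    have hB := Box.isPolytope_box b hb0
    have hfinQ : ∀ k, Z k (Box.box a) ≠ ⊤ := fun k =>
      ((hup _ hQ k).trans_lt (Poly.faceContent_lt_top _ hQ k)).ne
    have hfinB : ∀ k, Z k (Box.box b) ≠ ⊤ := fun k =>
      ((hup _ hB k).trans_lt (Poly.faceContent_lt_top _ hB k)).ne
    refine ⟨vec Z (Box.box a), ?_, vec Z (Box.box b), ?_, ?_, ?_, ?_, ?_, ?_, ?_, ?_⟩
    · rw [hX]; exact ⟨_, hC _ hQ, rfl⟩
    · rw [hX]; exact ⟨_, hC _ hB, rfl⟩
    · -- edges of Q
      apply vec_le Z _ _ 1 rfl _ (by positivity)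
      refine ((hup _ hQ 1).trans (Box.edge_box a ha0 ha1)).trans (le_of_eq ?_)
      rw [hNE, ← ENNReal.ofReal_mul hN0, pow_one]
    · apply vec_le Z _ _ 1 rfl _ (by positivity)
      refine ((hup _ hB 1).trans (Box.edge_box b hb0 (fun _ => hδ1))).trans (le_of_eq ?_)
      rw [hNE, ← ENNReal.ofReal_mul hN0, pow_one]
    · -- two-dimensional faces of Q
      refine (min_le_left _ _).trans ?_
      apply le_vec Z _ _ 2 rfl _ (hfinQ 2)
      have h1 := Ext.ext_box_ge (by omega : 2 ≤ n + 4) a (fun i => (ha0 i).le) 1 one_pos (by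
        intro i
        rw [ha]
        dsimp only
        rw [if_pos (show ((Fin.castLE (by omega : 2 ≤ n + 4) i : Fin (n + 4)) : ℕ) < 2 from i.2)])
      have h2 := hb2 1 one_pos
      rw [mul_one] at h2
      exact (h2.trans h1).trans (hlow _ hQ 2)
    · -- volume of the cube
      refine (mul_le_mul_of_nonneg_right (min_le_right _ _) hδ.le).trans ?_
      apply le_vec Z _ _ (n + 4) rfl _ (hfinB _)
      have h1 := Ext.ext_box_ge (le_refl (n + 4)) b (fun i => (hb0 i).le) δ hδ (fun i => le_rfl)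
      exact ((hb3 δ hδ).trans h1).trans (hlow _ hB _)
    · -- surface area of Q
      apply vec_le Z _ _ (n + 3) rfl _ (by positivity)
      refine ((hup _ hQ (n + 3)).trans (Box.surface_box (n := n + 3) a ha0
        (ENNReal.ofReal (δ ^ (n + 3))) ?_)).trans ?_
      · intro i
        apply prod_le_of _ _ (Fin.last (n + 2))
        · have h1 : ¬ ((i.succAbove (Fin.last (n + 2)) : Fin (n + 4)) : ℕ) < 2 := by
            have h2 : ((Fin.last (n + 2) : Fin (n + 3)) : ℕ) ≤ ((i.succAbove (Fin.last (n + 2)) : Fin (n + 4)) : ℕ) := by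
              rcases lt_or_ge (Fin.castSucc (Fin.last (n + 2))) i with h | h
              · rw [Fin.succAbove_of_castSucc_lt _ _ h]
                simp
              · rw [Fin.succAbove_of_le_castSucc _ _ h]
                simp
            rw [Fin.val_last] at h2
            omega
          rw [ha]
          dsimp only
          rw [if_neg h1]
        · intro j
          rw [ENNReal.ofReal_le_one]
          exact ha1 _
      · rw [hNE, ← ENNReal.ofReal_mul hN0]
        apply ENNReal.ofReal_le_ofReal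
        rw [mul_pow]
        apply mul_le_mul_of_nonneg_right _ hδp.le
        exact le_self_pow₀ hN1 (by omega)
    · -- surface area of the cube
      apply vec_le Z _ _ (n + 3) rfl _ (by positivity)
      refine ((hup _ hB (n + 3)).trans (Box.surface_box (n := n + 3) b hb0
        (ENNReal.ofReal (δ ^ (n + 3))) ?_)).trans ?_
      · intro i
        rw [hb]
        simp only [Finset.prod_const, Finset.card_univ, Fintype.card_fin]
        rw [ENNReal.ofReal_pow hδ.le]
      · rw [hNE, ← ENNReal.ofReal_mul hN0]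
        apply ENNReal.ofReal_le_ofReal
        rw [mul_pow]
        apply mul_le_mul_of_nonneg_right _ hδp.le
        exact le_self_pow₀ hN1 (by omega)
    · -- positivity
      have h1 := Ext.ext_box_ge (by omega : n + 3 ≤ n + 4) b (fun i => (hb0 i).le) δ hδ
        (fun i => le_rfl)
      have h2 : c4 * δ ≤ vec Z (Box.box b) ⟨n + 2, by omega⟩ := by
        apply le_vec Z _ _ (n + 3) rfl _ (hfinB _)
        exact ((hb4 δ hδ).trans h1).trans (hlow _ hB _)
      exact lt_of_lt_of_le (by positivity) h2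

/-- the cone of the content vectors of polytopes is not convex -/
theorem polytopes (n : ℕ) : ¬ Convex ℝ (zetaPolytopes (n + 4)) := by
  refine not_convex n faceContent (IsPolytope (n + 4)) _ rfl (fun P hP => hP)
    (fun P hP k => Ext.ext_le k P hP) (fun P _ k => le_rfl) ?_ ?_ ?_
  · intro K hK _ x hx y hy
    exact Poly.diam_ineq (n := n + 2) K hK x y hx hy
  · intro K hK D hD0 hD
    exact Poly.two_one K hK D hD0 hD
  · rintro K ⟨⟨S, rfl⟩, -⟩
    exact (S.finite_toSet.isCompact_convexHull ℝ).isBounded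

/-- the cone of the content vectors of convex bodies is not convex -/
theorem bodies (n : ℕ) : ¬ Convex ℝ (zetaBodies (n + 4)) := by
  refine not_convex n extContent (fun K => IsCompact K ∧ Convex ℝ K ∧ (interior K).Nonempty ∧
    extContent 1 K < ⊤) _ ?_ ?_ (fun P _ k => le_rfl) (fun P hP k => Ext.ext_le k P hP) ?_ ?_ ?_
  · ext x
    constructor
    · rintro ⟨K, h1, h2, h3, h4, h5⟩
      exact ⟨K, ⟨h1, h2, h3, h4⟩, h5⟩
    · rintro ⟨K, ⟨h1, h2, h3, h4⟩, h5⟩
      exact ⟨K, h1, h2, h3, h4, h5⟩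
  · intro P hP
    refine ⟨?_, ?_, hP.2, (Ext.ext_le 1 P hP).trans_lt (Poly.faceContent_lt_top P hP 1)⟩
    · obtain ⟨⟨S, rfl⟩, -⟩ := hP
      exact S.finite_toSet.isCompact_convexHull ℝ
    · obtain ⟨⟨S, rfl⟩, -⟩ := hP
      exact convex_convexHull ℝ _
  · intro K _ hK x hx y hy
    exact Ext.diam_ext (n := n + 2) K hK x y hx hy
  · rintro K ⟨-, -, -, h4⟩ D hD0 hD
    exact Ext.two_one_ext K h4.ne D hD0 hD
  · rintro K ⟨h1, -⟩
    exact h1.isBounded

end

end Pool.Agent.Helper37.FC.Final
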