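import Mathlib

/-!
The shadow inequality for a convex body.
-/

set_option autoImplicit false

namespace Pool.Agent.Helper37.FC.Shadow

open scoped BigOperators RealInnerProductSpace MeasureTheory
open MeasureTheory Module Measure

noncomputable section

/-- projections do not increase `μHE` -/
lemma muHE_image_le {X Y : Type*} [EMetricSpace X] [MeasurableSpace X] [BorelSpace X]
    [EMetricSpace Y] [MeasurableSpace Y] [BorelSpace Y] (k : ℕ) (f : X → Y) (hf : LipschitzWith 1 f)
    (s : Set X) : (μHE[k] : Measure Y) (f '' s) ≤ (μHE[k] : Measure X) s := by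
  rw [euclideanHausdorffMeasure_def, euclideanHausdorffMeasure_def, Measure.smul_apply,
    Measure.smul_apply]
  have h1 := hf.hausdorffMeasure_image_le (d := (k : ℝ)) (by positivity) s
  simp only [ENNReal.coe_one, ENNReal.one_rpow, one_mul] at h1
  gcongr

variable {E : Type*} [NormedAddCommGroup E] [InnerProductSpace ℝ E] [FiniteDimensional ℝ E]
  [MeasurableSpace E] [BorelSpace E]

lemma slice_le (K : Set E) (v : E) (hv : v ≠ 0) (L : ℝ)
    (hL : ∀ x ∈ K, ∀ t : ℝ, 0 ≤ t → x + t • v ∈ K → t * ‖v‖ ≤ L) (Z : Set E) (hZK : Z ⊆ K)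
    (hZ : ∀ z ∈ Z, ∀ z' ∈ Z, z' - z ∈ Submodule.span ℝ {v}) :
    (μHE[1] : Measure E) Z ≤ ENNReal.ofReal L := by
  rcases Z.eq_empty_or_nonempty with h | ⟨z0, hz0⟩
  · rw [h, measure_empty]; exact bot_le
  have hvn : 0 < ‖v‖ := norm_pos_iff.mpr hv
  set e : E := (‖v‖)⁻¹ • v with he
  have hen : ‖e‖ = 1 := by
    rw [he, norm_smul, norm_inv, norm_norm, inv_mul_cancel₀ hvn.ne']
  let f : ℝ → E := fun τ => z0 + τ • e
  have hf : Isometry f := by
    apply Isometry.of_dist_eq
    intro a b
    simp only [f]
    rw [dist_add_left, dist_eq_norm, ← sub_smul, norm_smul, hen, mul_one, Real.dist_eq,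
      Real.norm_eq_abs]
  set S : Set ℝ := f ⁻¹' Z with hS
  have hZS : Z ⊆ f '' S := by
    intro z hz
    obtain ⟨c, hc⟩ := Submodule.mem_span_singleton.mp (hZ z0 hz0 z hz)
    have h1 : f (c * ‖v‖) = z := by
      simp only [f, he]
      rw [smul_smul, mul_assoc, mul_inv_cancel₀ hvn.ne', mul_one, hc]
      abel
    exact ⟨c * ‖v‖, by rw [hS, Set.mem_preimage, h1]; exact hz, h1⟩
  have hdiam : ∀ a ∈ S, ∀ b ∈ S, a ≤ b → b - a ≤ L := by
    intro a ha b hb hab
    have h1 := hL (f a) (hZK ha) ((b - a) / ‖v‖) (div_nonneg (by linarith) hvn.le) (by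
      have : f a + ((b - a) / ‖v‖) • v = f b := by
        simp only [f, he]
        rw [div_eq_mul_inv, mul_smul, add_assoc, ← add_smul]
        congr 2
        ring
      rw [this]; exact hZK hb)
    rwa [div_mul_cancel₀ _ hvn.ne'] at h1
  calc (μHE[1] : Measure E) Z ≤ (μHE[1] : Measure E) (f '' S) := measure_mono hZS
    _ = (μHE[1] : Measure ℝ) S := hf.euclideanHausdorffMeasure_image S
    _ = volume S := by
        have h2 := InnerProductSpace.euclideanHausdorffMeasure_eq_volume (V := ℝ)
        rw [Module.finrank_self] at h2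
        rw [h2]
    _ ≤ Metric.ediam S := Real.volume_le_diam S
    _ ≤ ENNReal.ofReal L := by
        apply Metric.ediam_le
        intro a ha b hb
        rw [edist_dist]
        apply ENNReal.ofReal_le_ofReal
        rw [Real.dist_eq]
        rcases le_total a b with h | h
        · rw [abs_sub_comm, abs_of_nonneg (by linarith)]
          exact hdiam a ha b hb h
        · rw [abs_of_nonneg (by linarith)]
          exact hdiam b hb a ha h

/-- The shadow inequality. -/
theorem shadow (k : ℕ) (hE : finrank ℝ E = k + 1) (K : Set E)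
    (hKconv : Convex ℝ K) (v : E) (hv : v ≠ 0) (L : ℝ)
    (hL : ∀ x ∈ K, ∀ t : ℝ, 0 ≤ t → x + t • v ∈ K → t * ‖v‖ ≤ L)
    {ι : Type*} [Fintype ι] (H : ι → Set E)
    (hH : ∀ x ∈ interior K, ∃ t : ℝ, ∃ i, x + t • v ∈ H i) :
    (volume : Measure E) K ≤ ENNReal.ofReal L * ∑ i, (μHE[k] : Measure E) (H i) := by
  classical
  -- replace K by its interior
  have hvol : (volume : Measure E) K = (volume : Measure E) (interior K) := by
    apply le_antisymm _ (measure_mono interior_subset)
    have h1 : K ⊆ interior K ∪ frontier K := by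
      intro x hx
      by_cases h : x ∈ interior K
      · exact Or.inl h
      · exact Or.inr ⟨subset_closure hx, h⟩
    calc (volume : Measure E) K ≤ volume (interior K ∪ frontier K) := measure_mono h1
      _ ≤ volume (interior K) + volume (frontier K) := measure_union_le _ _
      _ = volume (interior K) := by rw [hKconv.addHaar_frontier volume, add_zero]
  rw [hvol, ← InnerProductSpace.euclideanHausdorffMeasure_eq_volume]
  set U : Submodule ℝ E := (Submodule.span ℝ {v})ᗮ with hU
  set s : AffineSubspace ℝ E := AffineSubspace.mk' 0 U with hs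
  have hdir : s.direction = U := AffineSubspace.direction_mk' _ _
  have hne : Nonempty s := ⟨⟨0, AffineSubspace.self_mem_mk' _ _⟩⟩
  have hmeas : MeasurableSet (interior K) := isOpen_interior.measurableSet
  have hUU : Uᗮ = Submodule.span ℝ {v} := by
    rw [hU, Submodule.orthogonal_orthogonal]
  have hr1 : finrank ℝ (s.directionᗮ : Submodule ℝ E) = 1 := by
    rw [hdir, hUU]
    exact finrank_span_singleton hv
  have hrk : finrank ℝ s.direction = k := by
    have h1 := Submodule.finrank_add_finrank_orthogonal s.direction
    omega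
  rw [AffineSubspace.euclideanHausdorffMeasure_eq_lintegral s hmeas, hr1, hrk]
  -- the shadow
  set A : Set s := {x | ∃ z ∈ interior K, z - x.val ∈ Submodule.span ℝ {v}} with hA
  have hslice : ∀ x : s, (μHE[1] : Measure E) (interior K ∩ (AffineSubspace.mk' x.val s.directionᗮ : Set E)) ≤
      (MeasureTheory.toMeasurable (μHE[k] : Measure s) A).indicator (fun _ => ENNReal.ofReal L) x := by
    intro x
    by_cases hx : x ∈ A
    · rw [Set.indicator_of_mem (subset_toMeasurable _ _ hx)]
      apply slice_le K v hv L hL _ (Set.inter_subset_left.trans interior_subset)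
      rintro z ⟨_, hz⟩ z' ⟨_, hz'⟩
      rw [SetLike.mem_coe, AffineSubspace.mem_mk', hdir, hUU] at hz hz'
      have : z' - z = (z' -ᵥ x.val) - (z -ᵥ x.val) := by simp
      rw [this]
      exact Submodule.sub_mem _ hz' hz
    · have hempty : interior K ∩ (AffineSubspace.mk' x.val s.directionᗮ : Set E) = ∅ := by
        rw [Set.eq_empty_iff_forall_notMem]
        rintro z ⟨hz1, hz2⟩
        rw [SetLike.mem_coe, AffineSubspace.mem_mk', hdir, hUU] at hz2
        exact hx ⟨z, hz1, hz2⟩
      rw [hempty, measure_empty]
      exact bot_le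
  calc ∫⁻ (x : s), (μHE[1] : Measure E) (interior K ∩ (AffineSubspace.mk' x.val s.directionᗮ : Set E))
        ∂(μHE[k] : Measure s)
      ≤ ∫⁻ (x : s), (MeasureTheory.toMeasurable (μHE[k] : Measure s) A).indicator
          (fun _ => ENNReal.ofReal L) x ∂(μHE[k] : Measure s) := lintegral_mono hslice
    _ = ENNReal.ofReal L * (μHE[k] : Measure s) A := by
        rw [lintegral_indicator (measurableSet_toMeasurable _ _), setLIntegral_const,
          measure_toMeasurable]
    _ ≤ ENNReal.ofReal L * ∑ i, (μHE[k] : Measure E) (H i) := by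
        gcongr
        rw [← AffineSubspace.euclideanHausdorffMeasure_coe_image]
        let p : E → E := fun x => U.starProjection x
        have hp : LipschitzWith 1 p := by
          have h1 := (U.starProjection).lipschitz
          refine h1.weaken ?_
          have := U.starProjection_norm_le
          exact_mod_cast this
        have hcover : Subtype.val '' A ⊆ ⋃ i, p '' (H i) := by
          rintro _ ⟨x, ⟨z, hz, hzx⟩, rfl⟩
          obtain ⟨t, i, hti⟩ := hH z hz
          refine Set.mem_iUnion.mpr ⟨i, z + t • v, hti, ?_⟩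
          obtain ⟨c, hc⟩ := Submodule.mem_span_singleton.mp hzx
          have h1 : z + t • v = x.val + (c + t) • v := by
            rw [add_smul, hc]; abel
          have hxU : x.val ∈ U := by
            have := AffineSubspace.mem_mk'.mp x.2
            simpa using this
          simp only [p]
          rw [h1, map_add, map_smul]
          have h2 : U.starProjection v = 0 := by
            rw [Submodule.starProjection_apply_eq_zero_iff, hUU]
            exact Submodule.mem_span_singleton_self v
          rw [h2, smul_zero, add_zero]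
          exact Submodule.starProjection_eq_self_iff.mpr hxU
        calc (μHE[k] : Measure E) (Subtype.val '' A) ≤ (μHE[k] : Measure E) (⋃ i, p '' (H i)) :=
              measure_mono hcover
          _ ≤ ∑ i, (μHE[k] : Measure E) (p '' (H i)) := measure_iUnion_fintype_le _ _
          _ ≤ ∑ i, (μHE[k] : Measure E) (H i) :=
              Finset.sum_le_sum (fun i _ => muHE_image_le k p hp (H i))

end

end Pool.Agent.Helper37.FC.Shadow
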